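import Pool.Agent.X159.VM.Main
import Pool.Agent.X159.WM.Sift

/-!
Vinogradov's system with the variables restricted to a set `A` whose dilates by `d ∈ D`
cover the positive integers, where `∑_{d ∈ D} d^(-1/2) < ∞`.
-/

set_option autoImplicit false

namespace Pool.Agent.X159.VM

open Finset

open scoped Classical in
/-- the solutions in `[1, N]` with all variables in `A` -/
noncomputable def solsIn (A : Set ℕ) (s k N : ℕ) : Finset ((Fin s → ℕ) × (Fin s → ℕ)) :=
  (sols s k N).filter (fun p => (∀ i, p.1 i ∈ A) ∧ ∀ i, p.2 i ∈ A)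

/-- `≪ N^s + N^(2s - k(k+1)/2)` for the solutions with all variables in `A` -/
def MeanValueIn (A : Set ℕ) (s k : ℕ) : Prop :=
  ∃ C : ℝ, ∀ N : ℕ, 1 ≤ N → ((solsIn A s k N).card : ℝ) ≤ C * ord s k N

theorem card_solsIn_le (A : Set ℕ) (s k N : ℕ) : (solsIn A s k N).card ≤ (sols s k N).card := by
  classical
  unfold solsIn
  exact Finset.card_filter_le _ _

theorem in_of_mean (A : Set ℕ) {s k : ℕ} (h : MeanValue s k) : MeanValueIn A s k := by
  obtain ⟨C, hC⟩ := h
  refine ⟨C, fun N hN => le_trans ?_ (hC N hN)⟩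
  exact_mod_cast card_solsIn_le A s k N

theorem card_subset {s k N : ℕ} (M : ℕ) [NeZero M] (hM : s * N ^ k < M) (S : Finset ℕ)
    (hS : S ⊆ Finset.Icc 1 N) :
    ∑ a : Fin k → ZMod M, ‖F S a‖ ^ (2 * s)
      = (M : ℝ) ^ k * ((solsOf s k (Fintype.piFinset fun _ : Fin s => S)).card : ℝ) := by
  rw [← parseval]
  · apply Finset.sum_congr rfl
    intro a _
    rw [← prod_F, norm_prod, Finset.prod_const, Finset.card_univ, Fintype.card_fin, ← pow_mul]
    congr 1
    ring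
  · intro x hx j
    rw [Fintype.mem_piFinset] at hx
    rcases Nat.eq_zero_or_pos N with h0 | h0
    · subst h0
      rcases Nat.eq_zero_or_pos s with h1 | h1
      · subst h1
        simpa using Nat.pos_of_ne_zero (NeZero.ne M)
      · exact absurd (hS (hx ⟨0, h1⟩)) (by simp)
    · calc ∑ i : Fin s, x i ^ (j.val + 1) ≤ ∑ _i : Fin s, N ^ k := by
            apply Finset.sum_le_sum
            intro i _
            exact (Nat.pow_le_pow_left (Finset.mem_Icc.mp (hS (hx i))).2 _).trans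
              (Nat.pow_le_pow_right h0 (by have := j.2; omega))
        _ = s * N ^ k := by simp
        _ < M := hM

/-- dilation: the solutions in `d · A` up to `N` are solutions in `A` up to `N / d` -/
theorem card_dilate {A : Set ℕ} {s k N d : ℕ} (hd : 1 ≤ d) (S : Finset ℕ)
    (hS : ∀ n ∈ S, 1 ≤ n ∧ n ≤ N ∧ ∃ a ∈ A, n = d * a) :
    (solsOf s k (Fintype.piFinset fun _ : Fin s => S)).card ≤ (solsIn A s k (N / d)).card := by
  classical
  have key : ∀ n ∈ S, n / d ∈ Finset.Icc 1 (N / d) ∧ n / d ∈ A ∧ n = d * (n / d) := by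
    intro n hn
    obtain ⟨h1, h2, a, ha, rfl⟩ := hS n hn
    rw [Nat.mul_div_cancel_left a (by omega : 0 < d), Finset.mem_Icc]
    refine ⟨⟨?_, ?_⟩, ha, rfl⟩
    · exact Nat.one_le_iff_ne_zero.2 (fun h => by simp [h] at h1)
    · rw [Nat.le_div_iff_mul_le (by omega), mul_comm]
      exact h2
  apply Finset.card_le_card_of_injOn
    (fun p => (fun i => p.1 i / d, fun i => p.2 i / d))
  · intro p hp
    rw [Finset.mem_coe] at hp ⊢
    unfold solsOf at hp
    rw [Finset.mem_filter, Finset.mem_product, Fintype.mem_piFinset, Fintype.mem_piFinset] at hp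
    obtain ⟨⟨h1, h2⟩, h3⟩ := hp
    unfold solsIn sols
    rw [Finset.mem_filter, Finset.mem_filter, Finset.mem_product, Fintype.mem_piFinset,
      Fintype.mem_piFinset]
    refine ⟨⟨⟨fun i => (key _ (h1 i)).1, fun i => (key _ (h2 i)).1⟩, ?_⟩,
      fun i => (key _ (h1 i)).2.1, fun i => (key _ (h2 i)).2.1⟩
    intro j
    have h4 : d ^ (j.val + 1) * ∑ i : Fin s, (p.1 i / d) ^ (j.val + 1)
        = d ^ (j.val + 1) * ∑ i : Fin s, (p.2 i / d) ^ (j.val + 1) := by
      rw [Finset.mul_sum, Finset.mul_sum]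
      simp_rw [← mul_pow]
      have e1 : ∀ i, d * (p.1 i / d) = p.1 i := fun i => ((key _ (h1 i)).2.2).symm
      have e2 : ∀ i, d * (p.2 i / d) = p.2 i := fun i => ((key _ (h2 i)).2.2).symm
      simp_rw [e1, e2]
      exact h3 j
    exact Nat.eq_of_mul_eq_mul_left (Nat.pow_pos (by omega)) h4
  · intro p hp p' hp' heq
    rw [Finset.mem_coe] at hp hp'
    unfold solsOf at hp hp'
    rw [Finset.mem_filter, Finset.mem_product, Fintype.mem_piFinset, Fintype.mem_piFinset]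
      at hp hp'
    have e1 := congrArg Prod.fst heq
    have e2 := congrArg Prod.snd heq
    simp only at e1 e2
    apply Prod.ext
    · funext i
      have h5 : p.1 i / d = p'.1 i / d := congrFun e1 i
      rw [(key _ (hp.1.1 i)).2.2, (key _ (hp'.1.1 i)).2.2, h5]
    · funext i
      have h5 : p.2 i / d = p'.2 i / d := congrFun e2 i
      rw [(key _ (hp.1.2 i)).2.2, (key _ (hp'.1.2 i)).2.2, h5]

open WM in
theorem rs_pow {d : ℕ} (s : ℕ) (hd : 1 ≤ d) : (1 / rs d) ^ (2 * s) = (d : ℝ) ^ s := by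
  have hdR : (0 : ℝ) < d := by exact_mod_cast hd
  rw [rs_apply, Real.rpow_neg hdR.le, one_div, inv_inv, ← Real.sqrt_eq_rpow, pow_mul,
    Real.sq_sqrt hdR.le]

open WM in
theorem rs_pos {d : ℕ} (hd : 1 ≤ d) : 0 < rs d := by
  have hdR : (0 : ℝ) < d := by exact_mod_cast hd
  rw [rs_apply]
  positivity

open WM in
/-- the main inequality -/
theorem free_ineq {A D : Set ℕ} (hcov : ∀ n : ℕ, 1 ≤ n → ∃ d ∈ D, ∃ a ∈ A, n = d * a)
    (s k N : ℕ) (hs : 1 ≤ s) (hN : 1 ≤ N) :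
    ∃ T : Finset ℕ, (∀ d ∈ T, d ∈ D ∧ 1 ≤ d ∧ d ≤ N) ∧
      ((sols s k N).card : ℝ) ≤ (∑ d ∈ T, rs d) ^ (2 * s - 1) *
        ∑ d ∈ T, rs d * ((d : ℝ) ^ s * ((solsIn A s k (N / d)).card : ℝ)) := by
  classical
  choose! g hg using hcov
  set T : Finset ℕ := (Finset.Icc 1 N).image g with hT
  have hg1 : ∀ n, 1 ≤ n → 1 ≤ g n ∧ g n ≤ n := by
    intro n hn
    obtain ⟨_, a, _, h⟩ := hg n hn
    have h0 : g n ≠ 0 := fun h0 => by rw [h0, zero_mul] at h; omega
    have h1 : a ≠ 0 := fun h1 => by rw [h1, mul_zero] at h; omega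
    refine ⟨Nat.one_le_iff_ne_zero.2 h0, ?_⟩
    calc g n ≤ g n * a := Nat.le_mul_of_pos_right _ (Nat.pos_of_ne_zero h1)
      _ = n := h.symm
  have hTm : ∀ d ∈ T, d ∈ D ∧ 1 ≤ d ∧ d ≤ N := by
    intro d hd
    rw [hT, Finset.mem_image] at hd
    obtain ⟨n, hn, rfl⟩ := hd
    rw [Finset.mem_Icc] at hn
    exact ⟨(hg n hn.1).1, (hg1 n hn.1).1, (hg1 n hn.1).2.trans hn.2⟩
  refine ⟨T, hTm, ?_⟩
  set S : ℕ → Finset ℕ := fun d => (Finset.Icc 1 N).filter (fun n => g n = d) with hS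
  set M : ℕ := s * N ^ k + 1 with hM
  have : NeZero M := ⟨by omega⟩
  have hMpos : (0 : ℝ) < (M : ℝ) ^ k := by
    have : (0 : ℝ) < M := by
      have : 0 < M := by omega
      exact_mod_cast this
    positivity
  set W : ℝ := ∑ d ∈ T, rs d with hW
  have hWpos : 0 < W := by
    have h1 : g 1 ∈ T := Finset.mem_image_of_mem _ (Finset.mem_Icc.2 ⟨le_rfl, hN⟩)
    have h2 : rs (g 1) ≤ W := by
      rw [hW]
      exact Finset.single_le_sum (f := fun d => rs d) (fun d _ => rs_nonneg d) h1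
    exact lt_of_lt_of_le (rs_pos (hTm _ h1).2.1) h2
  -- pointwise
  have hpt : ∀ a : Fin k → ZMod M, ‖F (Finset.Icc 1 N) a‖ ^ (2 * s) ≤
      W ^ (2 * s - 1) * ∑ d ∈ T, rs d * ((d : ℝ) ^ s * ‖F (S d) a‖ ^ (2 * s)) := by
    intro a
    have h1 : F (Finset.Icc 1 N) a = ∑ d ∈ T, F (S d) a := by
      unfold F
      rw [← Finset.sum_fiberwise_of_maps_to (s := Finset.Icc 1 N) (t := T) (g := g)
        (fun n hn => Finset.mem_image_of_mem _ hn)]
    have h2 : ‖F (Finset.Icc 1 N) a‖ ≤ ∑ d ∈ T, (rs d / W) * (W * (1 / rs d * ‖F (S d) a‖)) := by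
      rw [h1]
      refine (norm_sum_le _ _).trans (le_of_eq ?_)
      apply Finset.sum_congr rfl
      intro d hd
      have h3 := rs_pos (hTm d hd).2.1
      field_simp
    have h4 : (∑ d ∈ T, (rs d / W) * (W * (1 / rs d * ‖F (S d) a‖))) ^ (2 * s) ≤
        ∑ d ∈ T, (rs d / W) * (W * (1 / rs d * ‖F (S d) a‖)) ^ (2 * s) := by
      apply Real.pow_arith_mean_le_arith_mean_pow
      · intro d _
        exact div_nonneg (rs_nonneg d) hWpos.le
      · rw [← Finset.sum_div, ← hW, div_self hWpos.ne']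
      · intro d _
        exact mul_nonneg hWpos.le (mul_nonneg (div_nonneg zero_le_one (rs_nonneg d))
          (norm_nonneg _))
    refine ((pow_le_pow_left₀ (norm_nonneg _) h2 _).trans h4).trans (le_of_eq ?_)
    rw [Finset.mul_sum]
    apply Finset.sum_congr rfl
    intro d hd
    rw [mul_pow, mul_pow, rs_pow s (hTm d hd).2.1]
    have h5 : W ^ (2 * s) = W ^ (2 * s - 1) * W := by
      rw [← pow_succ]
      congr 1
      omega
    rw [h5]
    field_simp
  have hsum := Finset.sum_le_sum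
    (fun a (_ : a ∈ (Finset.univ : Finset (Fin k → ZMod M))) => hpt a)
  rw [card_eq_sum M (by omega), ← Finset.mul_sum, Finset.sum_comm] at hsum
  have h6 : ∀ d ∈ T, ∑ a : Fin k → ZMod M, rs d * ((d : ℝ) ^ s * ‖F (S d) a‖ ^ (2 * s)) ≤
      (M : ℝ) ^ k * (rs d * ((d : ℝ) ^ s * ((solsIn A s k (N / d)).card : ℝ))) := by
    intro d hd
    rw [← Finset.mul_sum, ← Finset.mul_sum, card_subset M (by omega) (S d)
      (Finset.filter_subset _ _)]
    have h7 : ((solsOf s k (Fintype.piFinset fun _ : Fin s => S d)).card : ℝ) ≤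
        ((solsIn A s k (N / d)).card : ℝ) := by
      have : (solsOf s k (Fintype.piFinset fun _ : Fin s => S d)).card ≤
          (solsIn A s k (N / d)).card := by
        apply card_dilate (hTm d hd).2.1
        intro n hn
        rw [hS, Finset.mem_filter, Finset.mem_Icc] at hn
        obtain ⟨a, ha, h⟩ := (hg n hn.1.1).2
        exact ⟨hn.1.1, hn.1.2, a, ha, by rw [← hn.2]; exact h⟩
      exact_mod_cast this
    have h8 : 0 ≤ rs d * (d : ℝ) ^ s * (M : ℝ) ^ k :=
      mul_nonneg (mul_nonneg (rs_nonneg d) (by positivity)) hMpos.le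
    calc rs d * ((d : ℝ) ^ s * ((M : ℝ) ^ k *
          ((solsOf s k (Fintype.piFinset fun _ : Fin s => S d)).card : ℝ)))
        = (rs d * (d : ℝ) ^ s * (M : ℝ) ^ k) *
          ((solsOf s k (Fintype.piFinset fun _ : Fin s => S d)).card : ℝ) := by ring
      _ ≤ (rs d * (d : ℝ) ^ s * (M : ℝ) ^ k) * ((solsIn A s k (N / d)).card : ℝ) :=
          mul_le_mul_of_nonneg_left h7 h8
      _ = _ := by ring
  have h9 := Finset.sum_le_sum h6
  rw [← Finset.mul_sum] at h9
  have h10 : 0 ≤ W ^ (2 * s - 1) := pow_nonneg hWpos.le _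
  have h11 := hsum.trans (mul_le_mul_of_nonneg_left h9 h10)
  have h12 : (M : ℝ) ^ k * ((sols s k N).card : ℝ) ≤ (M : ℝ) ^ k *
      (W ^ (2 * s - 1) * ∑ d ∈ T, rs d * ((d : ℝ) ^ s * ((solsIn A s k (N / d)).card : ℝ))) := by
    refine h11.trans (le_of_eq ?_)
    ring
  exact le_of_mul_le_mul_left h12 hMpos

open WM in
theorem mean_of_in {A D : Set ℕ} (hcov : ∀ n : ℕ, 1 ≤ n → ∃ d ∈ D, ∃ a ∈ A, n = d * a)
    (hD : Summable fun d : D => ((d : ℕ) : ℝ) ^ (-(1 / 2 : ℝ))) {s k : ℕ} (hs : 1 ≤ s)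
    (h : MeanValueIn A s k) : MeanValue s k := by
  classical
  obtain ⟨C, hC⟩ := h
  set e : ℝ := 2 * (s : ℝ) - (k : ℝ) * ((k : ℝ) + 1) / 2 with he
  set E : ℝ := max (s : ℝ) e with hE
  have hsR : (1 : ℝ) ≤ s := by exact_mod_cast hs
  have hEs : (s : ℝ) ≤ E := le_max_left _ _
  have hord1 : ∀ N : ℕ, 1 ≤ N → ord s k N ≤ 2 * (N : ℝ) ^ E := by
    intro N hN
    have hNR : (1 : ℝ) ≤ N := by exact_mod_cast hN
    unfold ord
    have h1 : (N : ℝ) ^ (s : ℝ) ≤ (N : ℝ) ^ E := Real.rpow_le_rpow_of_exponent_le hNR hEs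
    have h2 : (N : ℝ) ^ e ≤ (N : ℝ) ^ E :=
      Real.rpow_le_rpow_of_exponent_le hNR (le_max_right _ _)
    rw [← he]
    linarith
  have hord2 : ∀ N : ℕ, 1 ≤ N → (N : ℝ) ^ E ≤ ord s k N := by
    intro N hN
    have hNR : (0 : ℝ) ≤ N := by positivity
    unfold ord
    rw [← he]
    have h1 : 0 ≤ (N : ℝ) ^ (s : ℝ) := Real.rpow_nonneg hNR _
    have h2 : 0 ≤ (N : ℝ) ^ e := Real.rpow_nonneg hNR _
    rcases max_choice (s : ℝ) e with h3 | h3
    · rw [hE, h3]; linarith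
    · rw [hE, h3]; linarith
  set C' : ℝ := max C 0 with hC'
  have hC'0 : 0 ≤ C' := le_max_right _ _
  set σ : ℝ := ∑' d : D, ((d : ℕ) : ℝ) ^ (-(1 / 2 : ℝ)) with hσ
  have hσ0 : 0 ≤ σ := tsum_nonneg fun d => by positivity
  refine ⟨σ ^ (2 * s) * (2 * C'), fun N hN => ?_⟩
  have hNR : (1 : ℝ) ≤ N := by exact_mod_cast hN
  obtain ⟨T, hT, hineq⟩ := free_ineq hcov s k N hs hN
  set W : ℝ := ∑ d ∈ T, rs d with hW
  have hW0 : 0 ≤ W := Finset.sum_nonneg fun d _ => rs_nonneg d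
  have hWσ : W ≤ σ := by
    have hsub : ∀ d ∈ T, d ∈ D := fun d hd => (hT d hd).1
    calc W = ∑ d ∈ T.subtype (fun d => d ∈ D), rs (d : ℕ) := by
          rw [hW, Finset.sum_subtype_of_mem (fun d => rs d) hsub]
      _ ≤ σ := by
          rw [hσ]
          exact hD.sum_le_tsum _ fun d _ => rs_nonneg (d : ℕ)
  have hterm : ∀ d ∈ T, rs d * ((d : ℝ) ^ s * ((solsIn A s k (N / d)).card : ℝ)) ≤
      rs d * (2 * C' * (N : ℝ) ^ E) := by
    intro d hd
    obtain ⟨-, hd1, hdN⟩ := hT d hd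
    have hdR : (1 : ℝ) ≤ d := by exact_mod_cast hd1
    have hNd : 1 ≤ N / d := by
      rw [Nat.le_div_iff_mul_le (by omega)]
      omega
    apply mul_le_mul_of_nonneg_left _ (rs_nonneg d)
    have h1 : ((solsIn A s k (N / d)).card : ℝ) ≤ C' * (2 * ((N / d : ℕ) : ℝ) ^ E) := by
      calc ((solsIn A s k (N / d)).card : ℝ) ≤ C * ord s k (N / d) := hC _ hNd
        _ ≤ C' * ord s k (N / d) := by
            apply mul_le_mul_of_nonneg_right (le_max_left _ _)
            exact le_trans (by positivity) (hord2 _ hNd)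
        _ ≤ _ := mul_le_mul_of_nonneg_left (hord1 _ hNd) hC'0
    have h2 : ((N / d : ℕ) : ℝ) ^ E ≤ (N : ℝ) ^ E / (d : ℝ) ^ s := by
      have h3 : ((N / d : ℕ) : ℝ) ≤ (N : ℝ) / d := Nat.cast_div_le
      calc ((N / d : ℕ) : ℝ) ^ E ≤ ((N : ℝ) / d) ^ E :=
            Real.rpow_le_rpow (by positivity) h3 (by linarith)
        _ = (N : ℝ) ^ E / (d : ℝ) ^ E := Real.div_rpow (by linarith) (by linarith) _
        _ ≤ (N : ℝ) ^ E / (d : ℝ) ^ s := by
            apply div_le_div_of_nonneg_left (by positivity) (by positivity)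
            rw [← Real.rpow_natCast]
            exact Real.rpow_le_rpow_of_exponent_le hdR hEs
    have h4 : 0 < (d : ℝ) ^ s := by positivity
    calc (d : ℝ) ^ s * ((solsIn A s k (N / d)).card : ℝ)
        ≤ (d : ℝ) ^ s * (C' * (2 * ((N : ℝ) ^ E / (d : ℝ) ^ s))) := by
          apply mul_le_mul_of_nonneg_left _ h4.le
          refine h1.trans ?_
          apply mul_le_mul_of_nonneg_left _ hC'0
          exact mul_le_mul_of_nonneg_left h2 (by norm_num)
      _ = 2 * C' * (N : ℝ) ^ E := by field_simp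
  have hfin : ((sols s k N).card : ℝ) ≤ W ^ (2 * s - 1) * (W * (2 * C' * (N : ℝ) ^ E)) := by
    refine hineq.trans ?_
    apply mul_le_mul_of_nonneg_left _ (pow_nonneg hW0 _)
    refine (Finset.sum_le_sum hterm).trans (le_of_eq ?_)
    rw [hW, Finset.sum_mul]
  have hNE : 0 ≤ (N : ℝ) ^ E := by positivity
  calc ((sols s k N).card : ℝ) ≤ W ^ (2 * s - 1) * (W * (2 * C' * (N : ℝ) ^ E)) := hfin
    _ = W ^ (2 * s) * (2 * C' * (N : ℝ) ^ E) := by
        rw [← mul_assoc, ← pow_succ]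
        congr 2
        omega
    _ ≤ σ ^ (2 * s) * (2 * C' * (N : ℝ) ^ E) := by
        apply mul_le_mul_of_nonneg_right (pow_le_pow_left₀ hW0 hWσ _)
        exact mul_nonneg (mul_nonneg (by norm_num) hC'0) hNE
    _ ≤ σ ^ (2 * s) * (2 * C' * ord s k N) := by
        apply mul_le_mul_of_nonneg_left _ (pow_nonneg hσ0 _)
        exact mul_le_mul_of_nonneg_left (hord2 N hN) (mul_nonneg (by norm_num) hC'0)
    _ = _ := by ring

end Pool.Agent.X159.VM
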