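import Mathlib

/-!
Solutions of Vinogradov's system: orthogonality, translation-dilation invariance and the
reduction to solutions with variables in distinct residue classes, without loss of factors
`N^ε`.
-/

set_option autoImplicit false

namespace Pool.Agent.X159.VM

open Finset

/-- pairs of tuples from `T` with equal `j`-th power sums for `j = 1, …, k` -/
def solsOf (s k : ℕ) (T : Finset (Fin s → ℕ)) : Finset ((Fin s → ℕ) × (Fin s → ℕ)) :=
  (T ×ˢ T).filter (fun p =>
    ∀ j : Fin k, ∑ i : Fin s, p.1 i ^ (j.val + 1) = ∑ i : Fin s, p.2 i ^ (j.val + 1))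

/-- pairs of `s`-tuples of integers in `[1, N]` with equal `j`-th power sums, `j = 1, …, k` -/
def sols (s k N : ℕ) : Finset ((Fin s → ℕ) × (Fin s → ℕ)) :=
  ((Fintype.piFinset fun _ : Fin s => Finset.Icc 1 N) ×ˢ
      (Fintype.piFinset fun _ : Fin s => Finset.Icc 1 N)).filter
      (fun p : (Fin s → ℕ) × (Fin s → ℕ) =>
        ∀ j : Fin k, ∑ i : Fin s, p.1 i ^ (j.val + 1) = ∑ i : Fin s, p.2 i ^ (j.val + 1))

/-- the solutions `(x, y)` with `x_i ≡ y_i (mod q)` for all `i` and `x_1, …, x_s` pairwise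
incongruent modulo `q` -/
def condSols (s k q N : ℕ) : Finset ((Fin s → ℕ) × (Fin s → ℕ)) :=
  (sols s k N).filter (fun p =>
    (∀ i, p.1 i % q = p.2 i % q) ∧ ∀ i j, p.1 i % q = p.1 j % q → i = j)

theorem addChar_sum {A R ι : Type*} [AddCommMonoid A] [CommMonoid R] (ψ : AddChar A R)
    (s : Finset ι) (f : ι → A) : ψ (∑ i ∈ s, f i) = ∏ i ∈ s, ψ (f i) := by
  classical
  induction s using Finset.induction_on with
  | empty => simp
  | insert a s ha ih => rw [Finset.sum_insert ha, Finset.prod_insert ha,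
      AddChar.map_add_eq_mul, ih]

section orth

variable {M : ℕ} [NeZero M] {k : ℕ}

theorem orth (v : Fin k → ZMod M) :
    ∑ a : Fin k → ZMod M, (ZMod.stdAddChar (N := M)) (∑ j, a j * v j)
      = if v = 0 then (M : ℂ) ^ k else 0 := by
  have h1 : ∀ a : Fin k → ZMod M, (ZMod.stdAddChar (N := M)) (∑ j, a j * v j)
      = ∏ j, (ZMod.stdAddChar (N := M)) (a j * v j) := by
    intro a
    exact addChar_sum _ _ _
  simp_rw [h1]
  have h2 := Finset.prod_univ_sum (fun _ : Fin k => (Finset.univ : Finset (ZMod M)))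
    (fun j t => (ZMod.stdAddChar (N := M)) (t * v j))
  rw [Fintype.piFinset_univ] at h2
  rw [← h2]
  have h3 : ∀ j, ∑ t : ZMod M, (ZMod.stdAddChar (N := M)) (t * v j)
      = if v j = 0 then (M : ℂ) else 0 := by
    intro j
    have := AddChar.sum_mulShift (v j) (ZMod.isPrimitive_stdAddChar M)
    rw [this, ZMod.card]
    split <;> simp
  simp_rw [h3]
  by_cases hv : v = 0
  · subst hv
    simp
  · rw [if_neg hv]
    have : ∃ j, v j ≠ 0 := by
      by_contra hcon
      push Not at hcon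
      exact hv (funext hcon)
    obtain ⟨j, hj⟩ := this
    exact Finset.prod_eq_zero (Finset.mem_univ j) (by rw [if_neg hj])

/-- the power sums of `x` modulo `M` -/
def gam {s : ℕ} (M k : ℕ) (x : Fin s → ℕ) (j : Fin k) : ZMod M :=
  ((∑ i : Fin s, x i ^ (j.val + 1) : ℕ) : ZMod M)

noncomputable def H {s : ℕ} (T : Finset (Fin s → ℕ)) (a : Fin k → ZMod M) : ℂ :=
  ∑ x ∈ T, (ZMod.stdAddChar (N := M)) (∑ j, a j * gam M k x j)

noncomputable def F (S : Finset ℕ) (a : Fin k → ZMod M) : ℂ :=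
  ∑ x ∈ S, (ZMod.stdAddChar (N := M)) (∑ j, a j * ((x ^ (j.val + 1) : ℕ) : ZMod M))

theorem prod_F {s : ℕ} (S : Fin s → Finset ℕ) (a : Fin k → ZMod M) :
    ∏ i, F (S i) a = H (Fintype.piFinset S) a := by
  unfold F H
  rw [Finset.prod_univ_sum]
  apply Finset.sum_congr rfl
  intro x _
  rw [← addChar_sum]
  congr 1
  rw [Finset.sum_comm]
  apply Finset.sum_congr rfl
  intro j _
  unfold gam
  rw [← Finset.mul_sum]
  push_cast
  rfl

theorem parseval {s : ℕ} (T : Finset (Fin s → ℕ))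
    (hM : ∀ x ∈ T, ∀ j : Fin k, ∑ i : Fin s, x i ^ (j.val + 1) < M) :
    ∑ a : Fin k → ZMod M, ‖H T a‖ ^ 2 = (M : ℝ) ^ k * ((solsOf s k T).card : ℝ) := by
  have hc : (∑ a : Fin k → ZMod M, ((‖H T a‖ ^ 2 : ℝ) : ℂ))
      = (M : ℂ) ^ k * ((solsOf s k T).card : ℂ) := by
    have h1 : ∀ a : Fin k → ZMod M, ((‖H T a‖ ^ 2 : ℝ) : ℂ)
        = ∑ p ∈ T ×ˢ T, (ZMod.stdAddChar (N := M))
            (∑ j, a j * (gam M k p.1 j - gam M k p.2 j)) := by
      intro a
      have : ((‖H T a‖ ^ 2 : ℝ) : ℂ) = H T a * (starRingEnd ℂ) (H T a) := by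
        rw [Complex.mul_conj, Complex.normSq_eq_norm_sq]
      rw [this]
      unfold H
      rw [map_sum, Finset.sum_mul_sum, ← Finset.sum_product']
      apply Finset.sum_congr rfl
      intro p _
      rw [← AddChar.map_neg_eq_conj, ← AddChar.map_add_eq_mul]
      congr 1
      rw [← sub_eq_add_neg, ← Finset.sum_sub_distrib]
      apply Finset.sum_congr rfl
      intro j _
      ring
    simp_rw [h1]
    rw [Finset.sum_comm]
    have h2 : ∀ p ∈ T ×ˢ T, ∑ a : Fin k → ZMod M, (ZMod.stdAddChar (N := M))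
            (∑ j, a j * (gam M k p.1 j - gam M k p.2 j))
        = if (∀ j : Fin k, ∑ i : Fin s, p.1 i ^ (j.val + 1) = ∑ i : Fin s, p.2 i ^ (j.val + 1))
          then (M : ℂ) ^ k else 0 := by
      intro p hp
      rw [orth (fun j => gam M k p.1 j - gam M k p.2 j)]
      have hp' := Finset.mem_product.mp hp
      have hiff : ((fun j => gam M k p.1 j - gam M k p.2 j) = 0) ↔
          (∀ j : Fin k, ∑ i : Fin s, p.1 i ^ (j.val + 1) = ∑ i : Fin s, p.2 i ^ (j.val + 1)) := by
        constructor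
        · intro h j
          have hj := congrFun h j
          simp only [Pi.zero_apply, sub_eq_zero] at hj
          unfold gam at hj
          rw [ZMod.natCast_eq_natCast_iff'] at hj
          rwa [Nat.mod_eq_of_lt (hM _ hp'.1 j), Nat.mod_eq_of_lt (hM _ hp'.2 j)] at hj
        · intro h
          funext j
          simp only [Pi.zero_apply, sub_eq_zero]
          unfold gam
          rw [h j]
      by_cases hh : (∀ j : Fin k, ∑ i : Fin s, p.1 i ^ (j.val + 1)
          = ∑ i : Fin s, p.2 i ^ (j.val + 1))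
      · rw [if_pos hh, if_pos (hiff.mpr hh)]
      · rw [if_neg hh, if_neg (fun h => hh (hiff.mp h))]
    rw [Finset.sum_congr rfl h2, ← Finset.sum_filter, Finset.sum_const, nsmul_eq_mul]
    unfold solsOf
    ring
  have h4 : ((∑ a : Fin k → ZMod M, ‖H T a‖ ^ 2 : ℝ) : ℂ)
      = (((M : ℝ) ^ k * ((solsOf s k T).card : ℝ) : ℝ) : ℂ) := by
    push_cast
    push_cast at hc
    exact hc
  exact_mod_cast h4

end orth

/-- broad-narrow inequality -/
theorem pointwise {q s : ℕ} (hs : 2 ≤ s) (hq : 1 ≤ q) (z : Fin q → ℂ) :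
    ‖∑ c, z c‖ ^ (2 * s) ≤ (2 * ((s : ℝ) - 1)) ^ (2 * s) * ∑ c, ‖z c‖ ^ (2 * s)
      + (2 * (q : ℝ)) ^ (2 * s) *
        ∑ c ∈ (Finset.univ : Finset (Fin s → Fin q)).filter Function.Injective,
          ∏ i, ‖z (c i)‖ ^ 2 := by
  classical
  set W : ℝ := ‖∑ c, z c‖ with hW
  have hW0 : 0 ≤ W := norm_nonneg _
  have hqR : (1 : ℝ) ≤ q := by exact_mod_cast hq
  have hsR : (2 : ℝ) ≤ s := by exact_mod_cast hs
  set L : Finset (Fin q) := Finset.univ.filter (fun c => W / (2 * q) ≤ ‖z c‖) with hL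
  have hn2 : 0 ≤ ∑ c, ‖z c‖ ^ (2 * s) := Finset.sum_nonneg (fun _ _ => by positivity)
  have hn3 : 0 ≤ ∑ c ∈ (Finset.univ : Finset (Fin s → Fin q)).filter Function.Injective,
          ∏ i, ‖z (c i)‖ ^ 2 :=
    Finset.sum_nonneg (fun _ _ => Finset.prod_nonneg (fun _ _ => by positivity))
  by_cases hcard : L.card < s
  · -- narrow
    have hex : ∃ c0 : Fin q, ∀ c, ‖z c‖ ≤ ‖z c0‖ := by
      have : Nonempty (Fin q) := ⟨⟨0, hq⟩⟩
      obtain ⟨c0, _, h⟩ := Finset.exists_max_image Finset.univ (fun c => ‖z c‖)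
        Finset.univ_nonempty
      exact ⟨c0, fun c => h c (Finset.mem_univ c)⟩
    obtain ⟨c0, hc0⟩ := hex
    have h1 : W ≤ ((s : ℝ) - 1) * ‖z c0‖ + W / 2 := by
      calc W ≤ ∑ c, ‖z c‖ := norm_sum_le _ _
        _ = ∑ c ∈ L, ‖z c‖ + ∑ c ∈ Finset.univ.filter (fun c => ¬ W / (2 * q) ≤ ‖z c‖), ‖z c‖ :=
            (Finset.sum_filter_add_sum_filter_not _ _ _).symm
        _ ≤ ∑ c ∈ L, ‖z c0‖
              + ∑ c ∈ Finset.univ.filter (fun c => ¬ W / (2 * q) ≤ ‖z c‖), W / (2 * q) := by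
            apply add_le_add
            · exact Finset.sum_le_sum (fun c _ => hc0 c)
            · apply Finset.sum_le_sum
              intro c hc
              rw [Finset.mem_filter] at hc
              exact le_of_lt (not_le.mp hc.2)
        _ ≤ ((s : ℝ) - 1) * ‖z c0‖ + W / 2 := by
            rw [Finset.sum_const, Finset.sum_const, nsmul_eq_mul, nsmul_eq_mul]
            apply add_le_add
            · apply mul_le_mul_of_nonneg_right _ (norm_nonneg _)
              have : (L.card : ℝ) + 1 ≤ s := by exact_mod_cast hcard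
              linarith
            · have h5 : ((Finset.univ.filter
                  (fun c => ¬ W / (2 * q) ≤ ‖z c‖)).card : ℝ) ≤ q := by
                have := Finset.card_filter_le (Finset.univ : Finset (Fin q))
                  (fun c => ¬ W / (2 * q) ≤ ‖z c‖)
                rw [Finset.card_univ, Fintype.card_fin] at this
                exact_mod_cast this
              calc _ ≤ (q : ℝ) * (W / (2 * q)) :=
                    mul_le_mul_of_nonneg_right h5 (by positivity)
                _ = W / 2 := by field_simp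
    have h2 : W ≤ 2 * ((s : ℝ) - 1) * ‖z c0‖ := by linarith
    have h3 : W ^ (2 * s) ≤ (2 * ((s : ℝ) - 1)) ^ (2 * s) * ‖z c0‖ ^ (2 * s) := by
      rw [← mul_pow]
      exact pow_le_pow_left₀ hW0 h2 _
    have h4 : ‖z c0‖ ^ (2 * s) ≤ ∑ c, ‖z c‖ ^ (2 * s) :=
      Finset.single_le_sum (f := fun c => ‖z c‖ ^ (2 * s)) (fun _ _ => by positivity)
        (Finset.mem_univ c0)
    have h5 : 0 ≤ (2 * ((s : ℝ) - 1)) ^ (2 * s) := by
      rw [pow_mul]
      positivity
    calc W ^ (2 * s) ≤ (2 * ((s : ℝ) - 1)) ^ (2 * s) * ‖z c0‖ ^ (2 * s) := h3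
      _ ≤ (2 * ((s : ℝ) - 1)) ^ (2 * s) * ∑ c, ‖z c‖ ^ (2 * s) :=
          mul_le_mul_of_nonneg_left h4 h5
      _ ≤ _ := le_add_of_nonneg_right (by positivity)
  · -- broad
    push Not at hcard
    obtain ⟨L', hL', hL'c⟩ := Finset.exists_subset_card_eq hcard
    set e := L'.equivFinOfCardEq hL'c with he
    set c : Fin s → Fin q := fun i => (e.symm i : Fin q) with hc
    have hinj : Function.Injective c := by
      intro i j hij
      exact e.symm.injective (Subtype.ext hij)
    have h1 : ∀ i, W / (2 * q) ≤ ‖z (c i)‖ := by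
      intro i
      have := hL' (e.symm i).2
      rw [hL, Finset.mem_filter] at this
      exact this.2
    have h2 : (W / (2 * q)) ^ (2 * s) ≤ ∏ i, ‖z (c i)‖ ^ 2 := by
      have h3 : (W / (2 * q)) ^ (2 * s) = ∏ _i : Fin s, (W / (2 * q)) ^ 2 := by
        rw [Finset.prod_const, Finset.card_univ, Fintype.card_fin, ← pow_mul]
      rw [h3]
      apply Finset.prod_le_prod
      · intro i _
        positivity
      · intro i _
        exact pow_le_pow_left₀ (by positivity) (h1 i) 2
    have h4 : W ^ (2 * s) = (2 * (q : ℝ)) ^ (2 * s) * (W / (2 * q)) ^ (2 * s) := by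
      rw [← mul_pow]
      congr 1
      field_simp
    have h5 : ∏ i, ‖z (c i)‖ ^ 2 ≤
        ∑ c ∈ (Finset.univ : Finset (Fin s → Fin q)).filter Function.Injective,
          ∏ i, ‖z (c i)‖ ^ 2 :=
      Finset.single_le_sum (f := fun c : Fin s → Fin q => ∏ i, ‖z (c i)‖ ^ 2)
        (fun _ _ => Finset.prod_nonneg (fun _ _ => by positivity))
        (Finset.mem_filter.mpr ⟨Finset.mem_univ _, hinj⟩)
    have h6 : 0 ≤ (2 * ((s : ℝ) - 1)) ^ (2 * s) := by
      rw [pow_mul]
      positivity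
    calc W ^ (2 * s) = (2 * (q : ℝ)) ^ (2 * s) * (W / (2 * q)) ^ (2 * s) := h4
      _ ≤ (2 * (q : ℝ)) ^ (2 * s) *
        ∑ c ∈ (Finset.univ : Finset (Fin s → Fin q)).filter Function.Injective,
          ∏ i, ‖z (c i)‖ ^ 2 := by
          apply mul_le_mul_of_nonneg_left (h2.trans h5) (by positivity)
      _ ≤ _ := le_add_of_nonneg_left (by positivity)

end Pool.Agent.X159.VM
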