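import Pool.Agent.X159.VM.Rec

set_option autoImplicit false

namespace Pool.Agent.X159.VM

open Finset

/-- the conjectured order of magnitude -/
noncomputable def ord (s k N : ℕ) : ℝ :=
  (N : ℝ) ^ (s : ℝ) + (N : ℝ) ^ (2 * (s : ℝ) - (k : ℝ) * ((k : ℝ) + 1) / 2)

/-- `J_{s,k}(N) ≪ N^s + N^(2s - k(k+1)/2)` -/
def MeanValue (s k : ℕ) : Prop :=
  ∃ C : ℝ, ∀ N : ℕ, 1 ≤ N → ((sols s k N).card : ℝ) ≤ C * ord s k N

/-- the same bound for the conditioned solutions -/
def CondMeanValue (s k q : ℕ) : Prop :=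
  ∃ C : ℝ, ∀ N : ℕ, 1 ≤ N → ((condSols s k q N).card : ℝ) ≤ C * ord s k N

/-- Q1 -/
def Vaughan : Prop := ∀ s k : ℕ, 1 ≤ s → 1 ≤ k → (s, k) ≠ (3, 2) → MeanValue s k

theorem card_sols_le (s k N : ℕ) : (sols s k N).card ≤ N ^ (2 * s) := by
  unfold sols
  refine (Finset.card_filter_le _ _).trans ?_
  rw [Finset.card_product, Fintype.card_piFinset]
  simp only [Nat.card_Icc, Nat.add_sub_cancel, Finset.prod_const, Finset.card_univ,
    Fintype.card_fin]
  rw [← pow_add]
  exact le_of_eq (by congr 1; ring)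

theorem card_cond_le (s k q N : ℕ) : (condSols s k q N).card ≤ (sols s k N).card :=
  Finset.card_filter_le _ _

theorem q_bound {s q : ℕ} (hs : 2 ≤ s) (hq : 128 * s ^ 4 ≤ q) :
    (2 * ((s : ℝ) - 1)) ^ (2 * s) * q * (2 / (q : ℝ)) ^ s ≤ 1 / 2 := by
  have hqpos : 0 < q := lt_of_lt_of_le (by positivity) hq
  have hqR : (0 : ℝ) < q := by exact_mod_cast hqpos
  have hsR : (2 : ℝ) ≤ s := by exact_mod_cast hs
  have hs1 : (0 : ℝ) ≤ (s : ℝ) - 1 := by linarith
  obtain ⟨t, rfl⟩ : ∃ t, s = t + 1 := ⟨s - 1, by omega⟩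
  have ht : 1 ≤ t := by omega
  have e1 : (q : ℝ) * (2 / (q : ℝ)) ^ (t + 1) = 2 ^ (t + 1) / (q : ℝ) ^ t := by
    rw [div_pow, pow_succ (q : ℝ) t]
    field_simp
  have e0 : ((t + 1 : ℕ) : ℝ) - 1 = t := by push_cast; ring
  rw [e0, mul_assoc, e1]
  have h1 : (2 * (t : ℝ)) ^ (2 * (t + 1)) * 2 ^ (t + 1) * 2 ≤ (q : ℝ) ^ t := by
    have h2 : ((128 * (t + 1) ^ 4 : ℕ) : ℝ) ≤ q := by exact_mod_cast hq
    have h3 : ((128 * (t + 1) ^ 4 : ℕ) : ℝ) ^ t ≤ (q : ℝ) ^ t :=
      pow_le_pow_left₀ (by positivity) h2 t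
    refine le_trans ?_ h3
    push_cast
    have h4 : (2 * (t : ℝ)) ^ (2 * (t + 1)) ≤ 2 ^ (2 * (t + 1)) * ((t : ℝ) + 1) ^ (4 * t) := by
      rw [mul_pow]
      apply mul_le_mul_of_nonneg_left _ (by positivity)
      calc (t : ℝ) ^ (2 * (t + 1)) ≤ ((t : ℝ) + 1) ^ (2 * (t + 1)) :=
            pow_le_pow_left₀ (by positivity) (by linarith) _
        _ ≤ ((t : ℝ) + 1) ^ (4 * t) := by
            apply pow_le_pow_right₀ _ (by omega)
            have : (0 : ℝ) ≤ t := by positivity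
            linarith
    have h5 : (2 : ℝ) ^ (2 * (t + 1)) * 2 ^ (t + 1) * 2 ≤ 128 ^ t := by
      have : (128 : ℝ) = 2 ^ 7 := by norm_num
      rw [this, ← pow_mul, ← pow_add, ← pow_succ]
      exact pow_le_pow_right₀ (by norm_num) (by omega)
    calc (2 * (t : ℝ)) ^ (2 * (t + 1)) * 2 ^ (t + 1) * 2
        ≤ (2 ^ (2 * (t + 1)) * ((t : ℝ) + 1) ^ (4 * t)) * 2 ^ (t + 1) * 2 := by
          apply mul_le_mul_of_nonneg_right _ (by norm_num)
          exact mul_le_mul_of_nonneg_right h4 (by positivity)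
      _ = (2 ^ (2 * (t + 1)) * 2 ^ (t + 1) * 2) * ((t : ℝ) + 1) ^ (4 * t) := by ring
      _ ≤ 128 ^ t * ((t : ℝ) + 1) ^ (4 * t) := mul_le_mul_of_nonneg_right h5 (by positivity)
      _ = (128 * ((t : ℝ) + 1) ^ 4) ^ t := by rw [mul_pow, ← pow_mul]
  have hqt : (0 : ℝ) < (q : ℝ) ^ t := by positivity
  rw [← mul_div_assoc, div_le_iff₀ hqt]
  linarith

/-- contraction: from the conditioned solutions to all solutions -/
theorem mean_of_cond {s k q : ℕ} (hs : 2 ≤ s) (hq : 128 * s ^ 4 ≤ q) (h : CondMeanValue s k q) :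
    MeanValue s k := by
  obtain ⟨C, hC⟩ := h
  set e : ℝ := 2 * (s : ℝ) - (k : ℝ) * ((k : ℝ) + 1) / 2 with he
  set E : ℝ := max (s : ℝ) e with hE
  have hsR : (2 : ℝ) ≤ s := by exact_mod_cast hs
  have hEs : (s : ℝ) ≤ E := le_max_left _ _
  have hord1 : ∀ N : ℕ, 1 ≤ N → ord s k N ≤ 2 * (N : ℝ) ^ E := by
    intro N hN
    have hNR : (1 : ℝ) ≤ N := by exact_mod_cast hN
    unfold ord
    have h1 : (N : ℝ) ^ (s : ℝ) ≤ (N : ℝ) ^ E := Real.rpow_le_rpow_of_exponent_le hNR hEs
    have h2 : (N : ℝ) ^ e ≤ (N : ℝ) ^ E :=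
      Real.rpow_le_rpow_of_exponent_le hNR (le_max_right _ _)
    rw [← he]
    linarith
  have hord2 : ∀ N : ℕ, 1 ≤ N → (N : ℝ) ^ E ≤ ord s k N := by
    intro N hN
    have hNR : (0 : ℝ) ≤ N := by positivity
    unfold ord
    rw [← he]
    have h1 : 0 ≤ (N : ℝ) ^ (s : ℝ) := Real.rpow_nonneg hNR _
    have h2 : 0 ≤ (N : ℝ) ^ e := Real.rpow_nonneg hNR _
    rcases max_choice (s : ℝ) e with h3 | h3
    · rw [hE, h3]; linarith
    · rw [hE, h3]; linarith
  have hqpos : 0 < q := lt_of_lt_of_le (by positivity) hq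
  have hq2048 : 2048 ≤ q := by
    have : 2 ^ 4 ≤ s ^ 4 := Nat.pow_le_pow_left hs 4
    omega
  have hqR : (2048 : ℝ) ≤ q := by exact_mod_cast hq2048
  set A : ℝ := (2 * ((s : ℝ) - 1)) ^ (2 * s) with hA
  have hA0 : 0 ≤ A := by
    rw [hA, pow_mul]
    positivity
  set B : ℝ := (2 * (q : ℝ)) ^ (2 * s) with hB
  have hB0 : 0 ≤ B := by positivity
  set C' : ℝ := max C 0 with hC'
  set K : ℝ := (q : ℝ) ^ (2 * s) + 4 * B * C' with hK
  have hC'0 : 0 ≤ C' := le_max_right _ _
  have hK0 : 0 ≤ K := by positivity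
  have main : ∀ N : ℕ, 1 ≤ N → ((sols s k N).card : ℝ) ≤ K * (N : ℝ) ^ E := by
    intro N
    induction N using Nat.strong_induction_on with
    | _ N ih =>
      intro hN
      have hNR : (1 : ℝ) ≤ N := by exact_mod_cast hN
      by_cases hNq : N < q
      · have h1 : ((sols s k N).card : ℝ) ≤ (q : ℝ) ^ (2 * s) := by
          calc ((sols s k N).card : ℝ) ≤ ((N ^ (2 * s) : ℕ) : ℝ) := by
                exact_mod_cast card_sols_le s k N
            _ = (N : ℝ) ^ (2 * s) := by push_cast; ring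
            _ ≤ (q : ℝ) ^ (2 * s) :=
                pow_le_pow_left₀ (by positivity) (by exact_mod_cast hNq.le) _
        have h2 : (1 : ℝ) ≤ (N : ℝ) ^ E := Real.one_le_rpow hNR (by linarith)
        calc ((sols s k N).card : ℝ) ≤ (q : ℝ) ^ (2 * s) := h1
          _ ≤ K := by rw [hK]; nlinarith [mul_nonneg hB0 hC'0]
          _ ≤ K * (N : ℝ) ^ E := le_mul_of_one_le_right hK0 h2
      · push Not at hNq
        have hlt : N / q + 1 < N := by
          have h1 : N / q ≤ N / 2048 := Nat.div_le_div_left hq2048 (by norm_num)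
          omega
        have h1 := ih (N / q + 1) hlt (Nat.le_add_left 1 _)
        have h2 : (((N / q + 1 : ℕ) : ℝ)) ≤ 2 / (q : ℝ) * N := by
          have h3 : ((N / q : ℕ) : ℝ) ≤ (N : ℝ) / q := Nat.cast_div_le
          have h4 : (1 : ℝ) ≤ (N : ℝ) / q := by
            rw [le_div_iff₀ (by linarith)]
            simpa using (by exact_mod_cast hNq : (q : ℝ) ≤ N)
          push_cast
          calc ((N / q : ℕ) : ℝ) + 1 ≤ (N : ℝ) / q + (N : ℝ) / q := by linarith
            _ = 2 / (q : ℝ) * N := by ring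
        have hq0 : (0 : ℝ) < 2 / (q : ℝ) := by positivity
        have hq1 : 2 / (q : ℝ) ≤ 1 := by
          rw [div_le_one (by linarith)]
          linarith
        have h5 : (((N / q + 1 : ℕ) : ℝ)) ^ E ≤ (2 / (q : ℝ)) ^ s * (N : ℝ) ^ E := by
          calc (((N / q + 1 : ℕ) : ℝ)) ^ E ≤ (2 / (q : ℝ) * N) ^ E :=
                Real.rpow_le_rpow (by positivity) h2 (by linarith)
            _ = (2 / (q : ℝ)) ^ E * (N : ℝ) ^ E := Real.mul_rpow hq0.le (by positivity)
            _ ≤ (2 / (q : ℝ)) ^ s * (N : ℝ) ^ E := by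
                apply mul_le_mul_of_nonneg_right _ (by positivity)
                rw [← Real.rpow_natCast]
                exact Real.rpow_le_rpow_of_exponent_ge hq0 hq1 hEs
        have h6 := recursion (s := s) (k := k) (q := q) (N := N) hs (by omega)
        have h7 : ((condSols s k q N).card : ℝ) ≤ 2 * C' * (N : ℝ) ^ E := by
          calc ((condSols s k q N).card : ℝ) ≤ C * ord s k N := hC N hN
            _ ≤ C' * ord s k N := by
                apply mul_le_mul_of_nonneg_right (le_max_left _ _)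
                exact le_trans (by positivity) (hord2 N hN)
            _ ≤ C' * (2 * (N : ℝ) ^ E) := mul_le_mul_of_nonneg_left (hord1 N hN) hC'0
            _ = _ := by ring
        have h8 := q_bound hs hq
        rw [← hA] at h8
        have hNE : 0 ≤ (N : ℝ) ^ E := by positivity
        have hq0' : (0 : ℝ) ≤ q := by linarith
        calc ((sols s k N).card : ℝ)
            ≤ A * q * (sols s k (N / q + 1)).card + B * (condSols s k q N).card := h6
          _ ≤ A * q * (K * (((N / q + 1 : ℕ) : ℝ)) ^ E) + B * (2 * C' * (N : ℝ) ^ E) := by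
              apply add_le_add
              · exact mul_le_mul_of_nonneg_left h1 (mul_nonneg hA0 hq0')
              · exact mul_le_mul_of_nonneg_left h7 hB0
          _ ≤ A * q * (K * ((2 / (q : ℝ)) ^ s * (N : ℝ) ^ E)) + B * (2 * C' * (N : ℝ) ^ E) := by
              apply add_le_add_left
              apply mul_le_mul_of_nonneg_left _ (mul_nonneg hA0 hq0')
              exact mul_le_mul_of_nonneg_left h5 hK0
          _ = (A * q * (2 / (q : ℝ)) ^ s) * (K * (N : ℝ) ^ E) + 2 * B * C' * (N : ℝ) ^ E := by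
              ring
          _ ≤ (1 / 2) * (K * (N : ℝ) ^ E) + (1 / 2) * K * (N : ℝ) ^ E := by
              apply add_le_add
              · exact mul_le_mul_of_nonneg_right h8 (mul_nonneg hK0 hNE)
              · apply mul_le_mul_of_nonneg_right _ hNE
                rw [hK]
                have : (0 : ℝ) ≤ (q : ℝ) ^ (2 * s) := by positivity
                linarith
          _ = K * (N : ℝ) ^ E := by ring
  refine ⟨K, fun N hN => (main N hN).trans ?_⟩
  exact mul_le_mul_of_nonneg_left (hord2 N hN) hK0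

theorem cond_of_mean {s k q : ℕ} (h : MeanValue s k) : CondMeanValue s k q := by
  obtain ⟨C, hC⟩ := h
  refine ⟨C, fun N hN => le_trans ?_ (hC N hN)⟩
  exact_mod_cast card_cond_le s k q N

/-! ### Monotonicity in `s` -/

theorem card_eq_sum {s k N : ℕ} (M : ℕ) [NeZero M] (hM : s * N ^ k < M) :
    ∑ a : Fin k → ZMod M, ‖F (Finset.Icc 1 N) a‖ ^ (2 * s)
      = (M : ℝ) ^ k * ((sols s k N).card : ℝ) := by
  rw [sols_eq, ← parseval]
  · apply Finset.sum_congr rfl
    intro a _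
    rw [← prod_F, norm_prod, Finset.prod_const, Finset.card_univ, Fintype.card_fin, ← pow_mul]
    congr 1
    ring
  · intro x hx j
    rw [Fintype.mem_piFinset] at hx
    rcases Nat.eq_zero_or_pos N with h0 | h0
    · subst h0
      rcases Nat.eq_zero_or_pos s with h1 | h1
      · subst h1
        simpa using Nat.pos_of_ne_zero (NeZero.ne M)
      · exact absurd (hx ⟨0, h1⟩) (by simp)
    · calc ∑ i : Fin s, x i ^ (j.val + 1) ≤ ∑ _i : Fin s, N ^ k := by
            apply Finset.sum_le_sum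
            intro i _
            exact (Nat.pow_le_pow_left (Finset.mem_Icc.mp (hx i)).2 _).trans
              (Nat.pow_le_pow_right h0 (by have := j.2; omega))
        _ = s * N ^ k := by simp
        _ < M := hM

theorem F_le {k M N : ℕ} [NeZero M] (a : Fin k → ZMod M) : ‖F (Finset.Icc 1 N) a‖ ≤ N := by
  unfold F
  calc _ ≤ ∑ x ∈ Finset.Icc 1 N, ‖(ZMod.stdAddChar (N := M))
        (∑ j, a j * ((x ^ (j.val + 1) : ℕ) : ZMod M))‖ := norm_sum_le _ _
    _ = N := by simp [AddChar.norm_apply]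

/-- `J_{s+t} ≤ N^{2t} J_s` -/
theorem step_up (s t k N : ℕ) :
    ((sols (s + t) k N).card : ℝ) ≤ (N : ℝ) ^ (2 * t) * ((sols s k N).card : ℝ) := by
  set M : ℕ := (s + t) * N ^ k + 1 with hM
  have : NeZero M := ⟨by omega⟩
  have h1 := card_eq_sum (s := s + t) (k := k) (N := N) M (by omega)
  have h2 := card_eq_sum (s := s) (k := k) (N := N) M
    (by have : s * N ^ k ≤ (s + t) * N ^ k := Nat.mul_le_mul_right _ (by omega)
        omega)
  have hMpos : (0 : ℝ) < (M : ℝ) ^ k := by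
    have : (0 : ℝ) < M := by
      have : 0 < M := by omega
      exact_mod_cast this
    positivity
  have h3 : (M : ℝ) ^ k * ((sols (s + t) k N).card : ℝ)
      ≤ (M : ℝ) ^ k * ((N : ℝ) ^ (2 * t) * ((sols s k N).card : ℝ)) := by
    calc (M : ℝ) ^ k * ((sols (s + t) k N).card : ℝ)
        = ∑ a : Fin k → ZMod M, ‖F (Finset.Icc 1 N) a‖ ^ (2 * (s + t)) := h1.symm
      _ ≤ ∑ a : Fin k → ZMod M, (N : ℝ) ^ (2 * t) * ‖F (Finset.Icc 1 N) a‖ ^ (2 * s) := by
          apply Finset.sum_le_sum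
          intro a _
          have : 2 * (s + t) = 2 * t + 2 * s := by ring
          rw [this, pow_add]
          exact mul_le_mul_of_nonneg_right
            (pow_le_pow_left₀ (norm_nonneg _) (F_le a) _) (by positivity)
      _ = _ := by
          rw [← Finset.mul_sum, h2]
          ring
  exact le_of_mul_le_mul_left h3 hMpos

/-- Hölder: `J_s ≤ J_u^{s/u}` for `1 ≤ s ≤ u` -/
theorem step_down {s u k N : ℕ} (hs : 1 ≤ s) (hsu : s ≤ u) :
    ((sols s k N).card : ℝ) ≤ ((sols u k N).card : ℝ) ^ ((s : ℝ) / u) := by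
  set M : ℕ := u * N ^ k + 1 with hM
  have : NeZero M := ⟨by omega⟩
  have h1 := card_eq_sum (s := u) (k := k) (N := N) M (by omega)
  have h2 := card_eq_sum (s := s) (k := k) (N := N) M
    (by have : s * N ^ k ≤ u * N ^ k := Nat.mul_le_mul_right _ hsu
        omega)
  have hMpos : (0 : ℝ) < (M : ℝ) ^ k := by
    have : (0 : ℝ) < M := by
      have : 0 < M := by omega
      exact_mod_cast this
    positivity
  have hsR : (0 : ℝ) < s := by exact_mod_cast hs
  have huR : (0 : ℝ) < u := lt_of_lt_of_le hsR (by exact_mod_cast hsu)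
  have hp : (1 : ℝ) ≤ (u : ℝ) / s := by
    rw [le_div_iff₀ hsR]
    simpa using (by exact_mod_cast hsu : (s : ℝ) ≤ u)
  have hcardM : ∑ _a : Fin k → ZMod M, ((M : ℝ) ^ k)⁻¹ = 1 := by
    rw [Finset.sum_const, Finset.card_univ, Fintype.card_fun, ZMod.card, Fintype.card_fin,
      nsmul_eq_mul]
    push_cast
    exact mul_inv_cancel₀ (ne_of_gt hMpos)
  have h3 := Real.rpow_arith_mean_le_arith_mean_rpow (Finset.univ : Finset (Fin k → ZMod M))
    (fun _ => ((M : ℝ) ^ k)⁻¹) (fun a => ‖F (Finset.Icc 1 N) a‖ ^ (2 * s))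
    (fun _ _ => by positivity) hcardM (fun _ _ => by positivity) hp
  rw [← Finset.mul_sum, h2] at h3
  have h4 : ∀ a : Fin k → ZMod M, (‖F (Finset.Icc 1 N) a‖ ^ (2 * s)) ^ ((u : ℝ) / s)
      = ‖F (Finset.Icc 1 N) a‖ ^ (2 * u) := by
    intro a
    rw [← Real.rpow_natCast, ← Real.rpow_mul (norm_nonneg _), ← Real.rpow_natCast]
    congr 1
    push_cast
    field_simp
  simp_rw [h4] at h3
  rw [← Finset.mul_sum, h1] at h3
  rw [inv_mul_cancel_left₀ (ne_of_gt hMpos), inv_mul_cancel_left₀ (ne_of_gt hMpos)] at h3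
  have h5 : ((sols s k N).card : ℝ)
      = (((sols s k N).card : ℝ) ^ ((u : ℝ) / s)) ^ ((s : ℝ) / u) := by
    rw [← Real.rpow_mul (by positivity)]
    have : (u : ℝ) / s * (s / u) = 1 := by field_simp
    rw [this, Real.rpow_one]
  rw [h5]
  exact Real.rpow_le_rpow (Real.rpow_nonneg (Nat.cast_nonneg _) _) h3
    (div_nonneg hsR.le huR.le)

/-- `J_{1,k}(N) ≤ N` -/
theorem one_var {k N : ℕ} (hk : 1 ≤ k) : (sols 1 k N).card ≤ N := by
  have : (sols 1 k N).card ≤ (Fintype.piFinset fun _ : Fin 1 => Finset.Icc 1 N).card := by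
    apply Finset.card_le_card_of_injOn Prod.fst
    · intro p hp
      rw [Finset.mem_coe] at hp ⊢
      unfold sols at hp
      rw [Finset.mem_filter, Finset.mem_product] at hp
      exact hp.1.1
    · intro p hp p' hp' h
      rw [Finset.mem_coe] at hp hp'
      unfold sols at hp hp'
      rw [Finset.mem_filter] at hp hp'
      have h1 := hp.2 ⟨0, hk⟩
      have h2 := hp'.2 ⟨0, hk⟩
      simp at h1 h2
      apply Prod.ext h
      funext i
      have hi : i = 0 := Subsingleton.elim _ _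
      rw [hi, ← h1, ← h2, h]
  refine this.trans ?_
  rw [Fintype.card_piFinset]
  simp

/-- `J_{2,k}(N) ≤ 2 N²` for `k ≥ 2` -/
theorem two_var {k N : ℕ} (hk : 2 ≤ k) : (sols 2 k N).card ≤ 2 * N ^ 2 := by
  have : (sols 2 k N).card ≤
      ((Fintype.piFinset fun _ : Fin 2 => Finset.Icc 1 N) ×ˢ (Finset.univ : Finset Bool)).card := by
    apply Finset.card_le_card_of_injOn (fun p => (p.1, decide (p.2 0 = p.1 0)))
    · intro p hp
      rw [Finset.mem_coe] at hp ⊢
      unfold sols at hp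
      rw [Finset.mem_filter, Finset.mem_product] at hp
      rw [Finset.mem_product]
      exact ⟨hp.1.1, Finset.mem_univ _⟩
    · intro p hp p' hp' h
      rw [Finset.mem_coe] at hp hp'
      unfold sols at hp hp'
      rw [Finset.mem_filter] at hp hp'
      have h1 := hp.2 ⟨0, by omega⟩
      have h2 := hp'.2 ⟨0, by omega⟩
      have h3 := hp.2 ⟨1, by omega⟩
      have h4 := hp'.2 ⟨1, by omega⟩
      simp only [Fin.sum_univ_two, zero_add, pow_one, Nat.reduceAdd] at h1 h2 h3 h4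
      have e1 := congrArg Prod.fst h
      have e2 := congrArg Prod.snd h
      simp only at e1 e2
      have key : ∀ x y : Fin 2 → ℕ, x 0 + x 1 = y 0 + y 1 → x 0 ^ 2 + x 1 ^ 2 = y 0 ^ 2 + y 1 ^ 2 →
          (y 0 = x 0 ∧ y 1 = x 1) ∨ (y 0 = x 1 ∧ y 1 = x 0) := by
        intro x y a b
        have a' : (x 0 : ℤ) + x 1 = y 0 + y 1 := by exact_mod_cast a
        have b' : (x 0 : ℤ) ^ 2 + (x 1 : ℤ) ^ 2 = (y 0 : ℤ) ^ 2 + (y 1 : ℤ) ^ 2 := by
          exact_mod_cast b
        have c : ((y 0 : ℤ) - x 0) * ((y 0 : ℤ) - x 1) = 0 := by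
          have : (y 1 : ℤ) = x 0 + x 1 - y 0 := by linarith
          rw [this] at b'
          nlinarith
        rcases mul_eq_zero.mp c with c | c
        · left
          constructor <;> omega
        · right
          constructor <;> omega
      have k1 := key _ _ h1 h3
      have k2 := key _ _ h2 h4
      apply Prod.ext e1
      have x0 : p.1 0 = p'.1 0 := congrFun e1 0
      have x1 : p.1 1 = p'.1 1 := congrFun e1 1
      funext i
      fin_cases i
      · simp only [Fin.zero_eta]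
        by_cases hh : p.2 0 = p.1 0
        · have : p'.2 0 = p'.1 0 := by
            have := e2
            rw [decide_eq_true hh] at this
            exact of_decide_eq_true this.symm
          omega
        · have : ¬ p'.2 0 = p'.1 0 := by
            have := e2
            rw [decide_eq_false hh] at this
            exact of_decide_eq_false this.symm
          omega
      · simp only [Fin.mk_one]
        by_cases hh : p.2 0 = p.1 0
        · have : p'.2 0 = p'.1 0 := by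
            have := e2
            rw [decide_eq_true hh] at this
            exact of_decide_eq_true this.symm
          omega
        · have : ¬ p'.2 0 = p'.1 0 := by
            have := e2
            rw [decide_eq_false hh] at this
            exact of_decide_eq_false this.symm
          omega
  refine this.trans ?_
  rw [Finset.card_product, Fintype.card_piFinset]
  simp [mul_comm]

theorem mean_up {s t k : ℕ} (h : ∃ C : ℝ, ∀ N : ℕ, 1 ≤ N → ((sols s k N).card : ℝ)
    ≤ C * (N : ℝ) ^ (2 * (s : ℝ) - (k : ℝ) * ((k : ℝ) + 1) / 2)) : MeanValue (s + t) k := by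
  obtain ⟨C, hC⟩ := h
  refine ⟨|C|, fun N hN => ?_⟩
  have hNR : (0 : ℝ) < N := by exact_mod_cast hN
  calc ((sols (s + t) k N).card : ℝ) ≤ (N : ℝ) ^ (2 * t) * ((sols s k N).card : ℝ) :=
        step_up s t k N
    _ ≤ (N : ℝ) ^ (2 * t) * (|C| * (N : ℝ) ^ (2 * (s : ℝ) - (k : ℝ) * ((k : ℝ) + 1) / 2)) := by
        apply mul_le_mul_of_nonneg_left _ (by positivity)
        refine (hC N hN).trans ?_
        exact mul_le_mul_of_nonneg_right (le_abs_self C) (by positivity)
    _ = |C| * (N : ℝ) ^ (2 * ((s + t : ℕ) : ℝ) - (k : ℝ) * ((k : ℝ) + 1) / 2) := by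
        have : 2 * ((s + t : ℕ) : ℝ) - (k : ℝ) * ((k : ℝ) + 1) / 2
            = ((2 * t : ℕ) : ℝ) + (2 * (s : ℝ) - (k : ℝ) * ((k : ℝ) + 1) / 2) := by
          push_cast
          ring
        rw [this, Real.rpow_add hNR, Real.rpow_natCast]
        ring
    _ ≤ |C| * ord (s + t) k N := by
        apply mul_le_mul_of_nonneg_left _ (abs_nonneg C)
        unfold ord
        exact le_add_of_nonneg_left (by positivity)

theorem mean_down {s u k : ℕ} (hs : 1 ≤ s) (hsu : s ≤ u) (h : ∃ C : ℝ, ∀ N : ℕ, 1 ≤ N →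
    ((sols u k N).card : ℝ) ≤ C * (N : ℝ) ^ (u : ℝ)) : MeanValue s k := by
  obtain ⟨C, hC⟩ := h
  refine ⟨|C| ^ ((s : ℝ) / u), fun N hN => ?_⟩
  have hNR : (0 : ℝ) < N := by exact_mod_cast hN
  have hsR : (0 : ℝ) < s := by exact_mod_cast hs
  have huR : (0 : ℝ) < u := lt_of_lt_of_le hsR (by exact_mod_cast hsu)
  calc ((sols s k N).card : ℝ) ≤ ((sols u k N).card : ℝ) ^ ((s : ℝ) / u) := step_down hs hsu
    _ ≤ (|C| * (N : ℝ) ^ (u : ℝ)) ^ ((s : ℝ) / u) := by
        apply Real.rpow_le_rpow (by positivity) _ (by positivity)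
        refine (hC N hN).trans ?_
        exact mul_le_mul_of_nonneg_right (le_abs_self C) (by positivity)
    _ = |C| ^ ((s : ℝ) / u) * (N : ℝ) ^ (s : ℝ) := by
        rw [Real.mul_rpow (abs_nonneg C) (by positivity), ← Real.rpow_mul hNR.le]
        congr 2
        field_simp
    _ ≤ |C| ^ ((s : ℝ) / u) * ord s k N := by
        apply mul_le_mul_of_nonneg_left _ (by positivity)
        unfold ord
        exact le_add_of_nonneg_right (by positivity)

/-- the critical pairs -/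
def Critical (s k : ℕ) : Prop := (s = 4 ∧ k = 2) ∨ (3 ≤ k ∧ 2 * s = k * (k + 1))

theorem vaughan_of_critical (h : ∀ s k : ℕ, Critical s k → MeanValue s k) : Vaughan := by
  intro s k hs hk hne
  by_cases h1 : s = 1
  · subst h1
    refine ⟨1, fun N hN => ?_⟩
    unfold ord
    have h2 : ((sols 1 k N).card : ℝ) ≤ N := by exact_mod_cast one_var hk
    have h3 : 0 ≤ (N : ℝ) ^ (2 * ((1 : ℕ) : ℝ) - (k : ℝ) * ((k : ℝ) + 1) / 2) := by positivity
    rw [Nat.cast_one, Real.rpow_one] at *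
    linarith
  by_cases h2 : k = 1
  · subst h2
    obtain ⟨t, rfl⟩ : ∃ t, s = 1 + t := ⟨s - 1, by omega⟩
    apply mean_up
    refine ⟨1, fun N hN => ?_⟩
    have h3 : ((sols 1 1 N).card : ℝ) ≤ N := by exact_mod_cast one_var le_rfl
    have h4 : 2 * ((1 : ℕ) : ℝ) - ((1 : ℕ) : ℝ) * (((1 : ℕ) : ℝ) + 1) / 2 = 1 := by norm_num
    rw [h4, Real.rpow_one, one_mul]
    exact h3
  by_cases h3 : k = 2
  · subst h3
    have hs3 : s ≠ 3 := fun h => hne (by rw [h])
    by_cases h4 : s = 2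
    · subst h4
      refine ⟨2, fun N hN => ?_⟩
      unfold ord
      have h5 : ((sols 2 2 N).card : ℝ) ≤ 2 * (N : ℝ) ^ 2 := by exact_mod_cast two_var le_rfl
      have h6 : 0 ≤ (N : ℝ) ^ (2 * ((2 : ℕ) : ℝ) - ((2 : ℕ) : ℝ) * (((2 : ℕ) : ℝ) + 1) / 2) := by
        positivity
      have h7 : (N : ℝ) ^ ((2 : ℕ) : ℝ) = (N : ℝ) ^ 2 := Real.rpow_natCast _ _
      rw [h7]
      linarith
    · obtain ⟨t, rfl⟩ : ∃ t, s = 4 + t := ⟨s - 4, by omega⟩
      apply mean_up
      obtain ⟨C, hC⟩ := h 4 2 (Or.inl ⟨rfl, rfl⟩)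
      refine ⟨2 * |C|, fun N hN => (hC N hN).trans ?_⟩
      have hNR : (1 : ℝ) ≤ N := by exact_mod_cast hN
      have h5 : (N : ℝ) ^ ((4 : ℕ) : ℝ)
          ≤ (N : ℝ) ^ (2 * ((4 : ℕ) : ℝ) - ((2 : ℕ) : ℝ) * (((2 : ℕ) : ℝ) + 1) / 2) :=
        Real.rpow_le_rpow_of_exponent_le hNR (by norm_num)
      have h6 : ord 4 2 N ≤
          2 * (N : ℝ) ^ (2 * ((4 : ℕ) : ℝ) - ((2 : ℕ) : ℝ) * (((2 : ℕ) : ℝ) + 1) / 2) := by
        unfold ord
        linarith
      have h7 : 0 ≤ ord 4 2 N := by unfold ord; positivity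
      calc C * ord 4 2 N ≤ |C| * ord 4 2 N := mul_le_mul_of_nonneg_right (le_abs_self C) h7
        _ ≤ |C| * (2 * (N : ℝ) ^
            (2 * ((4 : ℕ) : ℝ) - ((2 : ℕ) : ℝ) * (((2 : ℕ) : ℝ) + 1) / 2)) :=
            mul_le_mul_of_nonneg_left h6 (abs_nonneg C)
        _ = _ := by ring
  · have hk3 : 3 ≤ k := by omega
    obtain ⟨u, hu⟩ : ∃ u, k * (k + 1) = u + u := (Nat.even_mul_succ_self k)
    have hcr : Critical u k := Or.inr ⟨hk3, by omega⟩
    have huR : 2 * (u : ℝ) = (k : ℝ) * ((k : ℝ) + 1) := by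
      have : 2 * u = k * (k + 1) := by omega
      exact_mod_cast this
    have hexp : 2 * (u : ℝ) - (k : ℝ) * ((k : ℝ) + 1) / 2 = u := by linarith
    obtain ⟨C, hC⟩ := h u k hcr
    have hC2 : ∀ N : ℕ, 1 ≤ N → ((sols u k N).card : ℝ) ≤ 2 * C * (N : ℝ) ^ (u : ℝ) := by
      intro N hN
      refine (hC N hN).trans (le_of_eq ?_)
      unfold ord
      rw [hexp]
      ring
    rcases le_total s u with hsu | hsu
    · exact mean_down hs hsu ⟨2 * C, hC2⟩
    · obtain ⟨t, rfl⟩ : ∃ t, s = u + t := ⟨s - u, by omega⟩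
      apply mean_up
      refine ⟨2 * C, fun N hN => ?_⟩
      rw [hexp]
      exact hC2 N hN

theorem critical_two_le {s k : ℕ} (h : Critical s k) : 2 ≤ s ∧ 1 ≤ k ∧ (s, k) ≠ (3, 2) := by
  rcases h with ⟨rfl, rfl⟩ | ⟨h1, h2⟩
  · exact ⟨by norm_num, by norm_num, by decide⟩
  · have : 3 * 4 ≤ k * (k + 1) := Nat.mul_le_mul h1 (by omega)
    refine ⟨by omega, by omega, ?_⟩
    intro h
    have := (Prod.mk.injEq _ _ _ _ ▸ h : s = 3 ∧ k = 2)
    omega

theorem vm_main :
    (∀ s k q : ℕ, 2 ≤ s → 1 ≤ k → 128 * s ^ 4 ≤ q → (MeanValue s k ↔ CondMeanValue s k q)) ∧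
    (Vaughan ↔ ∀ s k : ℕ, Critical s k → ∃ q : ℕ, 128 * s ^ 4 ≤ q ∧ CondMeanValue s k q) := by
  refine ⟨fun s k q hs _ hq => ⟨cond_of_mean, mean_of_cond hs hq⟩, ?_, ?_⟩
  · intro h s k hc
    obtain ⟨h1, h2, h3⟩ := critical_two_le hc
    exact ⟨128 * s ^ 4, le_rfl, cond_of_mean (h s k (by omega) h2 h3)⟩
  · intro h
    apply vaughan_of_critical
    intro s k hc
    obtain ⟨q, hq, hm⟩ := h s k hc
    exact mean_of_cond (critical_two_le hc).1 hq hm

end Pool.Agent.X159.VM
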