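import Pool.Agent.X159.VM.Free

/-!
The integers not divisible by `p^(e p)` for any prime `p`.
-/

set_option autoImplicit false

namespace Pool.Agent.X159.VM

open Finset WM

/-- the integers not divisible by `p^(e p)` for any prime `p` -/
def powerFree (e : ℕ → ℕ) : Set ℕ := {n | ∀ p, p.Prime → ¬ p ^ e p ∣ n}

/-- the positive integers in which the exponent of every prime `p` is a multiple of `e p` -/
def powers (e : ℕ → ℕ) : Set ℕ := {n | n ≠ 0 ∧ ∀ p, p.Prime → e p ∣ n.factorization p}

theorem cover (e : ℕ → ℕ) (he : ∀ p, p.Prime → 1 ≤ e p) :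
    ∀ n : ℕ, 1 ≤ n → ∃ d ∈ powers e, ∃ a ∈ powerFree e, n = d * a := by
  intro n
  induction n using Nat.strong_induction_on with
  | _ n ih =>
    intro hn
    by_cases h : n ∈ powerFree e
    · refine ⟨1, ⟨one_ne_zero, fun p _ => by simp⟩, n, h, (one_mul n).symm⟩
    · unfold powerFree at h
      rw [Set.mem_setOf_eq] at h
      push Not at h
      obtain ⟨p, hp, m, hm⟩ := h
      have hm0 : m ≠ 0 := fun h0 => by rw [h0, mul_zero] at hm; omega
      have hpe : 1 < p ^ e p := Nat.one_lt_pow (by have := he p hp; omega) hp.one_lt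
      have hlt : m < n := by
        rw [hm]
        exact lt_mul_of_one_lt_left (Nat.pos_of_ne_zero hm0) hpe
      obtain ⟨d, ⟨hd0, hd⟩, a, ha, hma⟩ := ih m hlt (Nat.one_le_iff_ne_zero.2 hm0)
      refine ⟨p ^ e p * d, ⟨mul_ne_zero (by omega) hd0, fun q hq => ?_⟩, a, ha, ?_⟩
      · rw [Nat.factorization_mul (by omega) hd0, Nat.Prime.factorization_pow hp,
          Finsupp.add_apply]
        apply Dvd.dvd.add _ (hd q hq)
        by_cases hqp : p = q
        · subst hqp
          rw [Finsupp.single_eq_same]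
        · rw [Finsupp.single_eq_of_ne (Ne.symm hqp)]
          exact dvd_zero _
      · rw [hm, hma, mul_assoc]

open scoped Classical in
/-- `n^(-1/2)` on `powers e` -/
noncomputable def fe (e : ℕ → ℕ) (n : ℕ) : ℝ := if n ∈ powers e then rs n else 0

theorem fe_nonneg (e : ℕ → ℕ) (n : ℕ) : 0 ≤ fe e n := by
  unfold fe
  split_ifs
  · exact rs_nonneg n
  · exact le_rfl

theorem fe_one (e : ℕ → ℕ) : fe e 1 = 1 := by
  unfold fe
  rw [if_pos, map_one]
  exact ⟨one_ne_zero, fun p _ => by simp⟩

theorem fe_mul (e : ℕ → ℕ) {m n : ℕ} (hmn : Nat.Coprime m n) :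
    fe e (m * n) = fe e m * fe e n := by
  classical
  have h : m * n ∈ powers e ↔ m ∈ powers e ∧ n ∈ powers e := by
    unfold powers
    simp only [Set.mem_setOf_eq]
    constructor
    · rintro ⟨h1, h2⟩
      rw [mul_ne_zero_iff] at h1
      have h3 : ∀ p, p.Prime → e p ∣ m.factorization p + n.factorization p := by
        intro p hp
        have := h2 p hp
        rwa [Nat.factorization_mul h1.1 h1.2, Finsupp.add_apply] at this
      have h4 : ∀ p, p.Prime → m.factorization p = 0 ∨ n.factorization p = 0 := by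
        intro p hp
        by_contra hcon
        push Not at hcon
        have e1 : p ∣ m := Nat.dvd_of_factorization_pos hcon.1
        have e2 : p ∣ n := Nat.dvd_of_factorization_pos hcon.2
        have := Nat.dvd_gcd e1 e2
        rw [hmn] at this
        exact hp.one_lt.ne' (Nat.dvd_one.1 this)
      refine ⟨⟨h1.1, fun p hp => ?_⟩, ⟨h1.2, fun p hp => ?_⟩⟩
      · rcases h4 p hp with h5 | h5
        · rw [h5]
          exact dvd_zero _
        · have := h3 p hp
          rwa [h5, add_zero] at this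
      · rcases h4 p hp with h5 | h5
        · have := h3 p hp
          rwa [h5, zero_add] at this
        · rw [h5]
          exact dvd_zero _
    · rintro ⟨⟨h1, h2⟩, ⟨h3, h4⟩⟩
      refine ⟨mul_ne_zero h1 h3, fun p hp => ?_⟩
      rw [Nat.factorization_mul h1 h3, Finsupp.add_apply]
      exact Dvd.dvd.add (h2 p hp) (h4 p hp)
  unfold fe
  by_cases h1 : m ∈ powers e
  · by_cases h2 : n ∈ powers e
    · rw [if_pos (h.2 ⟨h1, h2⟩), if_pos h1, if_pos h2, map_mul]
    · rw [if_neg (fun hh => h2 (h.1 hh).2), if_neg h2, mul_zero]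
  · rw [if_neg (fun hh => h1 (h.1 hh).1), if_neg h1, zero_mul]

theorem fe_pow (e : ℕ → ℕ) {p : ℕ} (hp : p.Prime) (j : ℕ) :
    fe e (p ^ j) = if e p ∣ j then rs p ^ j else 0 := by
  classical
  unfold fe
  have h : p ^ j ∈ powers e ↔ e p ∣ j := by
    unfold powers
    simp only [Set.mem_setOf_eq]
    rw [Nat.Prime.factorization_pow hp]
    constructor
    · rintro ⟨-, h⟩
      have := h p hp
      rwa [Finsupp.single_eq_same] at this
    · intro h
      refine ⟨(Nat.pow_pos hp.pos).ne', fun q _ => ?_⟩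
      by_cases hqp : p = q
      · subst hqp
        rwa [Finsupp.single_eq_same]
      · rw [Finsupp.single_eq_of_ne (Ne.symm hqp)]
        exact dvd_zero _
  by_cases h1 : e p ∣ j
  · rw [if_pos h1, if_pos (h.2 h1), map_pow]
  · rw [if_neg h1, if_neg (fun hh => h1 (h.1 hh))]

theorem fe_pow_le (e : ℕ → ℕ) {p : ℕ} (hp : p.Prime) (j : ℕ) :
    ‖fe e (p ^ j)‖ ≤ (3 / 4 : ℝ) ^ j := by
  rw [fe_pow e hp]
  split_ifs
  · rw [norm_pow, Real.norm_of_nonneg (rs_nonneg p)]
    exact pow_le_pow_left₀ (rs_nonneg p) (rs_prime_le hp) j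
  · rw [norm_zero]
    positivity

theorem fe_tsum (e : ℕ → ℕ) {p : ℕ} (hp : p.Prime) (he : 1 ≤ e p) :
    ∑' j : ℕ, fe e (p ^ j) = (1 - rs p ^ e p)⁻¹ := by
  have hinj : Function.Injective (fun i : ℕ => e p * i) := fun a b h =>
    Nat.eq_of_mul_eq_mul_left he h
  have h1 : ∑' i : ℕ, fe e (p ^ (e p * i)) = ∑' j : ℕ, fe e (p ^ j) := by
    apply hinj.tsum_eq (f := fun j => fe e (p ^ j))
    intro j hj
    rw [Function.mem_support, fe_pow e hp] at hj
    by_cases h : e p ∣ j
    · obtain ⟨i, rfl⟩ := h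
      exact ⟨i, rfl⟩
    · rw [if_neg h] at hj
      exact absurd rfl hj
  rw [← h1]
  have h2 : ∀ i : ℕ, fe e (p ^ (e p * i)) = (rs p ^ e p) ^ i := by
    intro i
    rw [fe_pow e hp, if_pos (Dvd.intro i rfl), pow_mul]
  simp_rw [h2]
  apply tsum_geometric_of_lt_one (pow_nonneg (rs_nonneg p) _)
  calc rs p ^ e p ≤ rs p ^ 1 :=
        pow_le_pow_of_le_one (rs_nonneg p) (by have := rs_prime_le hp; linarith) he
    _ < 1 := by rw [pow_one]; have := rs_prime_le hp; linarith

theorem summable_powers (e : ℕ → ℕ) (he : ∀ p, p.Prime → 1 ≤ e p)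
    (hs : Summable fun p : Nat.Primes => ((p : ℕ) : ℝ) ^ (-(e p : ℝ) / 2)) :
    Summable fun d : powers e => ((d : ℕ) : ℝ) ^ (-(1 / 2 : ℝ)) := by
  classical
  set σ : ℝ := ∑' p : Nat.Primes, ((p : ℕ) : ℝ) ^ (-(e p : ℝ) / 2) with hσ
  have hx : ∀ p : ℕ, rs p ^ e p = (p : ℝ) ^ (-(e p : ℝ) / 2) := by
    intro p
    rw [rs_apply, ← Real.rpow_natCast, ← Real.rpow_mul (Nat.cast_nonneg _)]
    congr 1
    ring
  have hmain : Summable (fun n => fe e n) := by
    apply summable_of_sum_le (c := Real.exp (4 * σ)) (fun d => fe_nonneg e d)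
    intro s
    set T : Finset ℕ := Finset.range (s.sup id + 1) with hT
    have hgeo := EulerProduct.summable_and_hasSum_factoredNumbers_prod_filter_prime_tsum
      (f := fun n => fe e n) (fe_one e) (fun {m n} h => fe_mul e h)
      (fun {p} hp => Summable.of_nonneg_of_le (fun j => norm_nonneg _) (fun j => fe_pow_le e hp j)
        (summable_geometric_of_lt_one (by norm_num) (by norm_num))) T
    have hsum : Summable (fun m : Nat.factoredNumbers T => fe e m) := hgeo.2.summable
    have hind : Summable ((Nat.factoredNumbers T).indicator fun m : ℕ => fe e m) :=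
      summable_subtype_iff_indicator.1 hsum
    have h1 : ∑ d ∈ s, fe e d ≤
        ∑ d ∈ s, (Nat.factoredNumbers T).indicator (fun m : ℕ => fe e m) d := by
      apply Finset.sum_le_sum
      intro d hd
      by_cases hd0 : d = 0
      · have : fe e d = 0 := by
          unfold fe
          rw [if_neg]
          rintro ⟨h, -⟩
          exact h hd0
        rw [this]
        exact Set.indicator_nonneg (fun m _ => fe_nonneg e m) d
      · rw [Set.indicator_of_mem]
        rw [Nat.mem_factoredNumbers]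
        refine ⟨hd0, fun p hp => ?_⟩
        rw [Nat.mem_primeFactorsList hd0] at hp
        rw [hT, Finset.mem_range]
        have h2 := Nat.le_of_dvd (Nat.pos_of_ne_zero hd0) hp.2
        have h3 : d ≤ s.sup id := Finset.le_sup (f := id) hd
        omega
    have h2 : ∑ d ∈ s, (Nat.factoredNumbers T).indicator (fun m : ℕ => fe e m) d ≤
        ∑' d, (Nat.factoredNumbers T).indicator (fun m : ℕ => fe e m) d :=
      hind.sum_le_tsum s fun d _ => Set.indicator_nonneg (fun m _ => fe_nonneg e m) d
    have h3 : ∑' d, (Nat.factoredNumbers T).indicator (fun m : ℕ => fe e m) d =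
        ∏ p ∈ T with p.Prime, ∑' j : ℕ, fe e (p ^ j) := by
      rw [← _root_.tsum_subtype]
      exact hgeo.2.tsum_eq
    have h4 : ∏ p ∈ T with p.Prime, ∑' j : ℕ, fe e (p ^ j) ≤
        ∏ p ∈ T with p.Prime, Real.exp (4 * rs p ^ e p) := by
      apply Finset.prod_le_prod
      · intro p _
        exact tsum_nonneg fun j => fe_nonneg e _
      · intro p hp
        rw [Finset.mem_filter] at hp
        rw [fe_tsum e hp.2 (he p hp.2)]
        have h5 : rs p ^ e p ≤ 3 / 4 := by
          calc rs p ^ e p ≤ rs p ^ 1 :=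
                pow_le_pow_of_le_one (rs_nonneg p) (by have := rs_prime_le hp.2; linarith)
                  (he p hp.2)
            _ ≤ 3 / 4 := by rw [pow_one]; exact rs_prime_le hp.2
        have h6 : 0 ≤ rs p ^ e p := pow_nonneg (rs_nonneg p) _
        have h7 : 0 < 1 - rs p ^ e p := by linarith
        rw [inv_le_iff_one_le_mul₀ h7]
        have h8 : 1 + 4 * rs p ^ e p ≤ Real.exp (4 * rs p ^ e p) := by
          have := Real.add_one_le_exp (4 * rs p ^ e p)
          linarith
        have h9 : 1 ≤ (1 - rs p ^ e p) * (1 + 4 * rs p ^ e p) := by nlinarith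
        have h10 : (1 - rs p ^ e p) * (1 + 4 * rs p ^ e p) ≤
            (1 - rs p ^ e p) * Real.exp (4 * rs p ^ e p) :=
          mul_le_mul_of_nonneg_left h8 h7.le
        nlinarith
    have h5 : ∏ p ∈ T with p.Prime, Real.exp (4 * rs p ^ e p) ≤ Real.exp (4 * σ) := by
      rw [← Real.exp_sum, ← Finset.mul_sum]
      apply Real.exp_le_exp.2
      apply mul_le_mul_of_nonneg_left _ (by norm_num)
      have hsub : ∀ p ∈ T.filter Nat.Prime, Nat.Prime p := fun p hp => (Finset.mem_filter.1 hp).2
      calc ∑ p ∈ T.filter Nat.Prime, rs p ^ e p =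
            ∑ p ∈ (T.filter Nat.Prime).subtype (fun p => Nat.Prime p), rs (p : ℕ) ^ e p := by
            rw [Finset.sum_subtype_of_mem (fun p => rs p ^ e p) hsub]
        _ ≤ σ := by
            rw [hσ]
            simp_rw [hx]
            exact hs.sum_le_tsum (f := fun p : Nat.Primes => ((p : ℕ) : ℝ) ^ (-(e p : ℝ) / 2)) _
              fun p _ => by positivity
    linarith
  have h := hmain.subtype (powers e)
  refine h.congr fun d => ?_
  have hd : (d : ℕ) ∈ powers e := d.2
  simp only [Function.comp_apply]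
  unfold fe
  rw [if_pos hd, rs_apply]

theorem summable_cubes :
    Summable fun p : Nat.Primes => ((p : ℕ) : ℝ) ^ (-(((fun _ : ℕ => 3) (p : ℕ) : ℕ) : ℝ) / 2) := by
  apply Nat.Primes.summable_rpow.2
  norm_num

end Pool.Agent.X159.VM
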