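import Pool.Agent.X159.VM.Core

set_option autoImplicit false

namespace Pool.Agent.X159.VM

open Finset

/-- the residue class `c` in `[1, N]` -/
def cls (q N : ℕ) (c : Fin q) : Finset ℕ := (Finset.Icc 1 N).filter (fun x => x % q = c.val)

theorem sols_eq (s k N : ℕ) :
    sols s k N = solsOf s k (Fintype.piFinset fun _ : Fin s => Finset.Icc 1 N) := rfl

/-- polynomial form of the system -/
theorem poly_system {s k : ℕ} (x y : Fin s → ℕ)
    (h : ∀ j : Fin k, ∑ i : Fin s, x i ^ (j.val + 1) = ∑ i : Fin s, y i ^ (j.val + 1))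
    (P : Polynomial ℚ) (hP : P.natDegree ≤ k) :
    ∑ i, P.eval (x i : ℚ) = ∑ i, P.eval (y i : ℚ) := by
  simp_rw [Polynomial.eval_eq_sum_range' (Nat.lt_succ_of_le hP)]
  rw [Finset.sum_comm, Finset.sum_comm (s := Finset.univ (α := Fin s))]
  apply Finset.sum_congr rfl
  intro j hj
  rw [← Finset.mul_sum, ← Finset.mul_sum]
  congr 1
  rcases Nat.eq_zero_or_pos j with h0 | h0
  · subst h0
    simp
  · have hjk : j - 1 < k := by
      rw [Finset.mem_range] at hj
      omega
    have := h ⟨j - 1, hjk⟩
    simp only at this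
    rw [Nat.sub_add_cancel h0] at this
    exact_mod_cast this

/-- translation-dilation invariance -/
theorem dilate {s k q N : ℕ} (hq : 1 ≤ q) (c : Fin q) :
    (solsOf s k (Fintype.piFinset fun _ : Fin s => cls q N c)).card
      ≤ (sols s k (N / q + 1)).card := by
  apply Finset.card_le_card_of_injOn
    (fun p => (fun i => p.1 i / q + 1, fun i => p.2 i / q + 1))
  · intro p hp
    rw [Finset.mem_coe] at hp ⊢
    unfold solsOf at hp
    rw [Finset.mem_filter, Finset.mem_product, Fintype.mem_piFinset, Fintype.mem_piFinset] at hp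
    obtain ⟨⟨h1, h2⟩, h3⟩ := hp
    have hx : ∀ i, p.1 i ≤ N ∧ p.1 i % q = c.val := by
      intro i
      have := h1 i
      unfold cls at this
      rw [Finset.mem_filter, Finset.mem_Icc] at this
      exact ⟨this.1.2, this.2⟩
    have hy : ∀ i, p.2 i ≤ N ∧ p.2 i % q = c.val := by
      intro i
      have := h2 i
      unfold cls at this
      rw [Finset.mem_filter, Finset.mem_Icc] at this
      exact ⟨this.1.2, this.2⟩
    unfold sols
    rw [Finset.mem_filter, Finset.mem_product, Fintype.mem_piFinset, Fintype.mem_piFinset]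
    refine ⟨⟨?_, ?_⟩, ?_⟩
    · intro i
      rw [Finset.mem_Icc]
      exact ⟨by simp, Nat.succ_le_succ (Nat.div_le_div_right (hx i).1)⟩
    · intro i
      rw [Finset.mem_Icc]
      exact ⟨by simp, Nat.succ_le_succ (Nat.div_le_div_right (hy i).1)⟩
    · intro j
      set P : Polynomial ℚ :=
        (Polynomial.C ((q : ℚ)⁻¹) * (Polynomial.X - Polynomial.C (c.val : ℚ)) + 1) ^ (j.val + 1)
        with hPdef
      have hdeg : P.natDegree ≤ k := by
        have h5 : (Polynomial.C ((q : ℚ)⁻¹) * (Polynomial.X - Polynomial.C (c.val : ℚ))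
            + 1).natDegree ≤ 1 := by
          compute_degree
        calc P.natDegree ≤ (j.val + 1) * 1 := by
              rw [hPdef]
              exact Polynomial.natDegree_pow_le_of_le _ h5
          _ ≤ k := by have := j.2; omega
      have h6 := poly_system p.1 p.2 h3 P hdeg
      have hqq : (q : ℚ) ≠ 0 := by
        have : q ≠ 0 := by omega
        exact_mod_cast this
      have h7 : ∀ t : ℕ, t % q = c.val → P.eval (t : ℚ) = (((t / q + 1) ^ (j.val + 1) : ℕ) : ℚ) := by
        intro t ht
        rw [hPdef]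
        simp only [Polynomial.eval_pow, Polynomial.eval_add, Polynomial.eval_mul,
          Polynomial.eval_C, Polynomial.eval_sub, Polynomial.eval_X, Polynomial.eval_one]
        push_cast
        congr 1
        have h8 : (t : ℚ) = q * ((t / q : ℕ) : ℚ) + c.val := by
          have := Nat.div_add_mod t q
          rw [ht] at this
          exact_mod_cast this.symm
        have h9 : ((t : ℚ) - c.val) = q * ((t / q : ℕ) : ℚ) := by linarith
        rw [h9]
        field_simp
      have h10 : ∑ i, P.eval (p.1 i : ℚ) = ((∑ i, (p.1 i / q + 1) ^ (j.val + 1) : ℕ) : ℚ) := by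
        push_cast
        apply Finset.sum_congr rfl
        intro i _
        have := h7 _ (hx i).2
        push_cast at this
        exact this
      have h11 : ∑ i, P.eval (p.2 i : ℚ) = ((∑ i, (p.2 i / q + 1) ^ (j.val + 1) : ℕ) : ℚ) := by
        push_cast
        apply Finset.sum_congr rfl
        intro i _
        have := h7 _ (hy i).2
        push_cast at this
        exact this
      rw [h10, h11] at h6
      exact_mod_cast h6
  · intro p hp p' hp' heq
    rw [Finset.mem_coe] at hp hp'
    unfold solsOf at hp hp'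
    rw [Finset.mem_filter, Finset.mem_product, Fintype.mem_piFinset, Fintype.mem_piFinset]
      at hp hp'
    have key : ∀ t t' : ℕ, t ∈ cls q N c → t' ∈ cls q N c → t / q + 1 = t' / q + 1 → t = t' := by
      intro t t' ht ht' h
      unfold cls at ht ht'
      rw [Finset.mem_filter] at ht ht'
      have h1 := Nat.div_add_mod t q
      have h2 := Nat.div_add_mod t' q
      rw [ht.2] at h1
      rw [ht'.2] at h2
      have h3 : t / q = t' / q := by omega
      rw [h3] at h1
      omega
    have e1 := congrArg Prod.fst heq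
    have e2 := congrArg Prod.snd heq
    simp only at e1 e2
    apply Prod.ext
    · funext i
      exact key _ _ (hp.1.1 i) (hp'.1.1 i) (congrFun e1 i)
    · funext i
      exact key _ _ (hp.1.2 i) (hp'.1.2 i) (congrFun e2 i)

/-- the fundamental recursion -/
theorem recursion {s k q N : ℕ} (hs : 2 ≤ s) (hq : 1 ≤ q) :
    ((sols s k N).card : ℝ) ≤ (2 * ((s : ℝ) - 1)) ^ (2 * s) * q * (sols s k (N / q + 1)).card
      + (2 * (q : ℝ)) ^ (2 * s) * (condSols s k q N).card := by
  classical
  set M : ℕ := (∑ j : Fin k, s * N ^ (j.val + 1)) + 1 with hMdef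
  haveI : NeZero M := ⟨by omega⟩
  have hMbig : ∀ x ∈ (Fintype.piFinset fun _ : Fin s => Finset.Icc 1 N), ∀ j : Fin k,
      ∑ i : Fin s, x i ^ (j.val + 1) < M := by
    intro x hx j
    rw [Fintype.mem_piFinset] at hx
    have h1 : ∑ i : Fin s, x i ^ (j.val + 1) ≤ s * N ^ (j.val + 1) := by
      calc ∑ i : Fin s, x i ^ (j.val + 1) ≤ ∑ _i : Fin s, N ^ (j.val + 1) := by
            apply Finset.sum_le_sum
            intro i _
            exact Nat.pow_le_pow_left (Finset.mem_Icc.mp (hx i)).2 _
        _ = s * N ^ (j.val + 1) := by simp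
    have h2 : s * N ^ (j.val + 1) ≤ ∑ j : Fin k, s * N ^ (j.val + 1) :=
      Finset.single_le_sum (f := fun j : Fin k => s * N ^ (j.val + 1)) (fun _ _ => Nat.zero_le _)
        (Finset.mem_univ j)
    omega
  have hsub : ∀ S : Fin s → Finset ℕ, (∀ i, S i ⊆ Finset.Icc 1 N) →
      ∀ x ∈ Fintype.piFinset S, ∀ j : Fin k, ∑ i : Fin s, x i ^ (j.val + 1) < M := by
    intro S hS x hx j
    apply hMbig x _ j
    rw [Fintype.mem_piFinset] at hx ⊢
    exact fun i => hS i (hx i)
  have hcls : ∀ c : Fin q, cls q N c ⊆ Finset.Icc 1 N := fun c => Finset.filter_subset _ _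
  -- the sum over classes
  have hF : ∀ a : Fin k → ZMod M, F (Finset.Icc 1 N) a = ∑ c : Fin q, F (cls q N c) a := by
    intro a
    unfold F cls
    rw [← Finset.sum_fiberwise_of_maps_to (s := Finset.Icc 1 N) (t := (Finset.univ : Finset (Fin q)))
      (g := fun x => (⟨x % q, Nat.mod_lt _ (by omega)⟩ : Fin q)) (fun _ _ => Finset.mem_univ _)]
    apply Finset.sum_congr rfl
    intro c _
    apply Finset.sum_congr _ (fun _ _ => rfl)
    ext x
    simp only [Finset.mem_filter, Fin.ext_iff]
  have hpt : ∀ a : Fin k → ZMod M, ‖F (Finset.Icc 1 N) a‖ ^ (2 * s)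
      ≤ (2 * ((s : ℝ) - 1)) ^ (2 * s) * ∑ c, ‖F (cls q N c) a‖ ^ (2 * s)
      + (2 * (q : ℝ)) ^ (2 * s) *
        ∑ c ∈ (Finset.univ : Finset (Fin s → Fin q)).filter Function.Injective,
          ∏ i, ‖F (cls q N (c i)) a‖ ^ 2 := by
    intro a
    rw [hF a]
    exact pointwise hs hq _
  have hprod : ∀ (S : Fin s → Finset ℕ), (∀ i, S i ⊆ Finset.Icc 1 N) →
      ∑ a : Fin k → ZMod M, ∏ i, ‖F (S i) a‖ ^ 2
        = (M : ℝ) ^ k * ((solsOf s k (Fintype.piFinset S)).card : ℝ) := by
    intro S hS
    rw [← parseval _ (hsub S hS)]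
    apply Finset.sum_congr rfl
    intro a _
    rw [← prod_F, norm_prod, Finset.prod_pow]
  have hconst : ∀ (S : Finset ℕ), S ⊆ Finset.Icc 1 N →
      ∑ a : Fin k → ZMod M, ‖F S a‖ ^ (2 * s)
        = (M : ℝ) ^ k * ((solsOf s k (Fintype.piFinset fun _ : Fin s => S)).card : ℝ) := by
    intro S hS
    rw [← hprod (fun _ => S) (fun _ => hS)]
    apply Finset.sum_congr rfl
    intro a _
    rw [Finset.prod_const, Finset.card_univ, Fintype.card_fin, ← pow_mul]
  have hsum := Finset.sum_le_sum (fun a (_ : a ∈ (Finset.univ : Finset (Fin k → ZMod M))) => hpt a)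
  rw [Finset.sum_add_distrib, ← Finset.mul_sum, ← Finset.mul_sum, Finset.sum_comm,
    Finset.sum_comm (s := (Finset.univ : Finset (Fin k → ZMod M)))
      (t := (Finset.univ : Finset (Fin s → Fin q)).filter Function.Injective),
    hconst _ (Finset.Subset.refl _)] at hsum
  simp_rw [hconst _ (hcls _)] at hsum
  have hinj : ∀ c ∈ (Finset.univ : Finset (Fin s → Fin q)).filter Function.Injective,
      ∑ a : Fin k → ZMod M, ∏ i, ‖F (cls q N (c i)) a‖ ^ 2
        = (M : ℝ) ^ k * ((solsOf s k (Fintype.piFinset fun i => cls q N (c i))).card : ℝ) :=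
    fun c _ => hprod (fun i => cls q N (c i)) (fun i => hcls _)
  rw [Finset.sum_congr rfl hinj] at hsum
  -- the conditioned solutions
  have hcond : ∑ c ∈ (Finset.univ : Finset (Fin s → Fin q)).filter Function.Injective,
      ((solsOf s k (Fintype.piFinset fun i => cls q N (c i))).card : ℝ)
        ≤ (condSols s k q N).card := by
    have h1 : (condSols s k q N).card = ∑ c ∈ (Finset.univ : Finset (Fin s → Fin q)).filter
        Function.Injective, ((condSols s k q N).filter (fun p =>
          (fun i => (⟨p.1 i % q, Nat.mod_lt _ (by omega)⟩ : Fin q)) = c)).card := by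
      apply Finset.card_eq_sum_card_fiberwise
      intro p hp
      rw [Finset.mem_coe] at hp ⊢
      rw [Finset.mem_filter]
      refine ⟨Finset.mem_univ _, ?_⟩
      intro i j hij
      simp only [Fin.mk.injEq] at hij
      unfold condSols at hp
      rw [Finset.mem_filter] at hp
      exact hp.2.2 i j hij
    rw [h1]
    push_cast
    apply Finset.sum_le_sum
    intro c hc
    rw [Finset.mem_filter] at hc
    have : (solsOf s k (Fintype.piFinset fun i => cls q N (c i))) ⊆
        (condSols s k q N).filter (fun p =>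
          (fun i => (⟨p.1 i % q, Nat.mod_lt _ (by omega)⟩ : Fin q)) = c) := by
      intro p hp
      unfold solsOf at hp
      rw [Finset.mem_filter, Finset.mem_product, Fintype.mem_piFinset, Fintype.mem_piFinset] at hp
      obtain ⟨⟨h2, h3⟩, h4⟩ := hp
      have h5 : ∀ i, p.1 i ∈ Finset.Icc 1 N ∧ p.1 i % q = (c i).val := by
        intro i
        have := h2 i
        unfold cls at this
        rwa [Finset.mem_filter] at this
      have h6 : ∀ i, p.2 i ∈ Finset.Icc 1 N ∧ p.2 i % q = (c i).val := by
        intro i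
        have := h3 i
        unfold cls at this
        rwa [Finset.mem_filter] at this
      rw [Finset.mem_filter]
      refine ⟨?_, ?_⟩
      · unfold condSols sols
        rw [Finset.mem_filter, Finset.mem_filter, Finset.mem_product, Fintype.mem_piFinset,
          Fintype.mem_piFinset]
        refine ⟨⟨⟨fun i => (h5 i).1, fun i => (h6 i).1⟩, h4⟩, ?_, ?_⟩
        · intro i
          rw [(h5 i).2, (h6 i).2]
        · intro i j hij
          rw [(h5 i).2, (h5 j).2] at hij
          exact hc.2 (Fin.ext hij)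
      · funext i
        exact Fin.ext (h5 i).2
    exact_mod_cast Finset.card_le_card this
  have hcl2 : ∑ c : Fin q, ((solsOf s k (Fintype.piFinset fun _ : Fin s => cls q N c)).card : ℝ)
      ≤ q * (sols s k (N / q + 1)).card := by
    calc _ ≤ ∑ _c : Fin q, ((sols s k (N / q + 1)).card : ℝ) := by
          apply Finset.sum_le_sum
          intro c _
          exact_mod_cast dilate hq c
      _ = _ := by simp
  rw [← Finset.mul_sum, ← Finset.mul_sum] at hsum
  have hMpos : (0 : ℝ) < (M : ℝ) ^ k := by
    have : (0 : ℝ) < M := by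
      have : 0 < M := by omega
      exact_mod_cast this
    positivity
  have hA : 0 ≤ (2 * ((s : ℝ) - 1)) ^ (2 * s) := by
    rw [pow_mul]
    positivity
  have hfin : (M : ℝ) ^ k * ((sols s k N).card : ℝ) ≤ (M : ℝ) ^ k *
      ((2 * ((s : ℝ) - 1)) ^ (2 * s) * q * (sols s k (N / q + 1)).card
      + (2 * (q : ℝ)) ^ (2 * s) * (condSols s k q N).card) := by
    rw [sols_eq s k N]
    refine hsum.trans ?_
    have e1 : (2 * ((s : ℝ) - 1)) ^ (2 * s) * ((M : ℝ) ^ k *
        ∑ c : Fin q, ((solsOf s k (Fintype.piFinset fun _ : Fin s => cls q N c)).card : ℝ))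
        ≤ (M : ℝ) ^ k * ((2 * ((s : ℝ) - 1)) ^ (2 * s) * q * (sols s k (N / q + 1)).card) := by
      calc _ = (M : ℝ) ^ k * ((2 * ((s : ℝ) - 1)) ^ (2 * s) *
            ∑ c : Fin q, ((solsOf s k (Fintype.piFinset fun _ : Fin s => cls q N c)).card : ℝ)) := by
            ring
        _ ≤ (M : ℝ) ^ k * ((2 * ((s : ℝ) - 1)) ^ (2 * s) *
            (q * (sols s k (N / q + 1)).card)) := by
            apply mul_le_mul_of_nonneg_left _ hMpos.le
            exact mul_le_mul_of_nonneg_left hcl2 hA
        _ = _ := by ring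
    have e2 : (2 * (q : ℝ)) ^ (2 * s) * ((M : ℝ) ^ k *
        ∑ c ∈ (Finset.univ : Finset (Fin s → Fin q)).filter Function.Injective,
          ((solsOf s k (Fintype.piFinset fun i => cls q N (c i))).card : ℝ))
        ≤ (M : ℝ) ^ k * ((2 * (q : ℝ)) ^ (2 * s) * (condSols s k q N).card) := by
      calc _ = (M : ℝ) ^ k * ((2 * (q : ℝ)) ^ (2 * s) *
            ∑ c ∈ (Finset.univ : Finset (Fin s → Fin q)).filter Function.Injective,
          ((solsOf s k (Fintype.piFinset fun i => cls q N (c i))).card : ℝ)) := by ring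
        _ ≤ _ := by
            apply mul_le_mul_of_nonneg_left _ hMpos.le
            exact mul_le_mul_of_nonneg_left hcond (by positivity)
    calc _ ≤ _ := add_le_add e1 e2
      _ = _ := by ring
  exact le_of_mul_le_mul_left hfin hMpos

end Pool.Agent.X159.VM
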